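import Mathlib

set_option linter.dupNamespace false
set_option linter.unusedSectionVars false

open FirstOrder FirstOrder.Language Set

namespace Pool.Agent.W5h80.TL

/-- Function symbols: one binary function. -/
inductive Fn : ℕ → Type
  | d : Fn 2

/-- Relation symbols: an order and two unary predicates. -/
inductive Rl : ℕ → Type
  | lt : Rl 2
  | p0 : Rl 1
  | p1 : Rl 1

/-- The language. -/
def Lg : FirstOrder.Language.{0, 0} := ⟨Fn, Rl⟩

/-- The distance function. -/
def dd {N : Type*} [Lg.Structure N] (x y : N) : N :=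
  Structure.funMap (L := Lg) (Fn.d : Lg.Functions 2) ![x, y]

/-- Structures with three levels, each linearly ordered, with a convex ultrametric distance on the
levels 1 and 2 with values in the previous level, and with the extension axioms. -/
class TL (N : Type*) [Lg.Structure N] extends LinearOrder N where
  lt_iff : ∀ x y : N, Structure.RelMap (L := Lg) (Rl.lt : Lg.Relations 2) ![x, y] ↔ x < y
  lev : N → ℕ
  lev_le : ∀ x : N, lev x ≤ 2
  p0_iff : ∀ x : N, Structure.RelMap (L := Lg) (Rl.p0 : Lg.Relations 1) ![x] ↔ lev x = 0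
  p1_iff : ∀ x : N, Structure.RelMap (L := Lg) (Rl.p1 : Lg.Relations 1) ![x] ↔ lev x = 1
  lev_mono : ∀ {x y : N}, x ≤ y → lev x ≤ lev y
  d_junk : ∀ {x y : N}, (lev x = 0 ∨ lev x ≠ lev y ∨ x = y) → dd x y = x
  d_lev : ∀ {x y : N}, lev x = lev y → lev x ≠ 0 → x ≠ y → lev (dd x y) + 1 = lev x
  d_symm : ∀ {x y : N}, lev x = lev y → lev x ≠ 0 → dd x y = dd y x
  d_conv : ∀ {x y z : N}, x < y → y < z → lev x = lev z → lev x ≠ 0 →
    dd x z = min (dd x y) (dd y z)
  ext_lt : ∀ {x g : N}, lev x = lev g + 1 → ∃ y, y < x ∧ lev y = lev x ∧ dd x y = g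
  ext_gt : ∀ {x g : N}, lev x = lev g + 1 → ∃ y, x < y ∧ lev y = lev x ∧ dd x y = g
  mid : ∀ {x y : N}, x < y → lev x = lev y → lev x ≠ 0 →
    ∃ z, x < z ∧ z < y ∧ dd x z = dd x y ∧ dd z y = dd x y
  dense0 : ∀ {x y : N}, x < y → lev y = 0 → ∃ z, x < z ∧ z < y
  noMin0 : ∀ {x : N}, lev x = 0 → ∃ y, y < x
  noMax0 : ∀ {x : N}, lev x = 0 → ∃ y, x < y ∧ lev y = 0
  ex : ∀ k, k ≤ 2 → ∃ x : N, lev x = k

open TL

variable {N N' : Type*} [Lg.Structure N] [Lg.Structure N'] [TL N] [TL N']

theorem lt_of_lev_lt {x y : N} (h : lev x < lev y) : x < y := by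
  by_contra hlt
  push Not at hlt
  exact absurd (lev_mono hlt) (by omega)

theorem lev_eq_of_between {x y z : N} (h1 : x ≤ y) (h2 : y ≤ z) (h : lev x = lev z) :
    lev y = lev x := le_antisymm (h ▸ lev_mono h2) (lev_mono h1)

/-- Partial isomorphisms, as sets of pairs. -/
structure PI (G : Set (N × N')) : Prop where
  lt : ∀ {p q : N × N'}, p ∈ G → q ∈ G → (p.1 < q.1 ↔ p.2 < q.2)
  lev : ∀ {p : N × N'}, p ∈ G → lev p.1 = lev p.2
  d : ∀ {p q : N × N'}, p ∈ G → q ∈ G → (dd p.1 q.1, dd p.2 q.2) ∈ G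

namespace PI

variable {G : Set (N × N')}

theorem eq (h : PI G) {p q : N × N'} (hp : p ∈ G) (hq : q ∈ G) : p.1 = q.1 ↔ p.2 = q.2 := by
  have h1 := h.lt hp hq
  have h2 := h.lt hq hp
  constructor
  · intro e
    rcases lt_trichotomy p.2 q.2 with h3 | h3 | h3
    · exact absurd (h1.2 h3) (by rw [e]; exact lt_irrefl _)
    · exact h3
    · exact absurd (h2.2 h3) (by rw [e]; exact lt_irrefl _)
  · intro e
    rcases lt_trichotomy p.1 q.1 with h3 | h3 | h3
    · exact absurd (h1.1 h3) (by rw [e]; exact lt_irrefl _)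
    · exact h3
    · exact absurd (h2.1 h3) (by rw [e]; exact lt_irrefl _)

theorem le (h : PI G) {p q : N × N'} (hp : p ∈ G) (hq : q ∈ G) : p.1 ≤ q.1 ↔ p.2 ≤ q.2 := by
  rw [← not_lt, ← not_lt, h.lt hq hp]

theorem min (h : PI G) {p q : N × N'} (hp : p ∈ G) (hq : q ∈ G) :
    (Min.min p.1 q.1, Min.min p.2 q.2) ∈ G := by
  rcases le_total p.1 q.1 with h1 | h1
  · rw [min_eq_left h1, min_eq_left ((h.le hp hq).1 h1)]
    exact hp
  · rw [min_eq_right h1, min_eq_right ((h.le hq hp).1 h1)]
    exact hq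

/-- Adding one pair. -/
theorem add (h : PI G) {x : N} {x' : N'} (hl : TL.lev x = TL.lev x')
    (H : ∀ p ∈ G, TL.lev p.1 = TL.lev x → (x < p.1 ↔ x' < p.2) ∧ (p.1 < x ↔ p.2 < x') ∧
      (TL.lev x ≠ 0 → (dd x p.1, dd x' p.2) ∈ G)) :
    PI (insert (x, x') G) := by
  have horder : ∀ p ∈ G, (x < p.1 ↔ x' < p.2) ∧ (p.1 < x ↔ p.2 < x') := by
    intro p hp
    have hlp := h.lev hp
    rcases lt_trichotomy (TL.lev p.1) (TL.lev x) with h1 | h1 | h1
    · have h2 : p.1 < x := lt_of_lev_lt h1
      have h3 : p.2 < x' := lt_of_lev_lt (by omega)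
      exact ⟨⟨fun h4 => absurd h4 h2.asymm, fun h4 => absurd h4 h3.asymm⟩,
        ⟨fun _ => h3, fun _ => h2⟩⟩
    · exact ⟨(H p hp h1).1, (H p hp h1).2.1⟩
    · have h2 : x < p.1 := lt_of_lev_lt h1
      have h3 : x' < p.2 := lt_of_lev_lt (by omega)
      exact ⟨⟨fun _ => h3, fun _ => h2⟩,
        ⟨fun h4 => absurd h4 h2.asymm, fun h4 => absurd h4 h3.asymm⟩⟩
  have heq : ∀ p ∈ G, x = p.1 ↔ x' = p.2 := by
    intro p hp
    obtain ⟨h1, h2⟩ := horder p hp
    constructor
    · intro e
      rcases lt_trichotomy x' p.2 with h3 | h3 | h3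
      · exact absurd (h1.2 h3) (by rw [e]; exact lt_irrefl _)
      · exact h3
      · exact absurd (h2.2 h3) (by rw [e]; exact lt_irrefl _)
    · intro e
      rcases lt_trichotomy x p.1 with h3 | h3 | h3
      · exact absurd (h1.1 h3) (by rw [e]; exact lt_irrefl _)
      · exact h3
      · exact absurd (h2.1 h3) (by rw [e]; exact lt_irrefl _)
  have hdx : ∀ p ∈ G, (dd x p.1, dd x' p.2) ∈ insert (x, x') G ∧
      (dd p.1 x, dd p.2 x') ∈ insert (x, x') G := by
    intro p hp
    have hlp := h.lev hp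
    by_cases h1 : TL.lev x = 0
    · rw [d_junk (Or.inl h1), d_junk (Or.inl (hl ▸ h1))]
      refine ⟨mem_insert _ _, ?_⟩
      by_cases h2 : TL.lev p.1 = 0
      · rw [d_junk (Or.inl h2), d_junk (Or.inl (hlp ▸ h2))]
        exact mem_insert_of_mem _ hp
      · rw [d_junk (Or.inr (Or.inl (by omega))), d_junk (Or.inr (Or.inl (by omega)))]
        exact mem_insert_of_mem _ hp
    · by_cases h2 : TL.lev p.1 = TL.lev x
      · have h3 := (H p hp h2).2.2 h1
        refine ⟨mem_insert_of_mem _ h3, ?_⟩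
        rw [d_symm h2 (by omega), d_symm (x := p.2) (by omega) (by omega)]
        exact mem_insert_of_mem _ h3
      · rw [d_junk (Or.inr (Or.inl (by omega))), d_junk (Or.inr (Or.inl (by omega))),
          d_junk (Or.inr (Or.inl h2)), d_junk (Or.inr (Or.inl (by omega)))]
        exact ⟨mem_insert _ _, mem_insert_of_mem _ hp⟩
  refine ⟨?_, ?_, ?_⟩
  · intro p q hp hq
    rcases hp with rfl | hp <;> rcases hq with rfl | hq
    · simp
    · exact (horder q hq).1
    · exact (horder p hp).2
    · exact h.lt hp hq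
  · intro p hp
    rcases hp with rfl | hp
    · exact hl
    · exact h.lev hp
  · intro p q hp hq
    rcases hp with rfl | hp <;> rcases hq with rfl | hq
    · rw [d_junk (Or.inr (Or.inr rfl)), d_junk (Or.inr (Or.inr rfl))]
      exact mem_insert _ _
    · exact (hdx q hq).1
    · exact (hdx p hp).2
    · exact mem_insert_of_mem _ (h.d hp hq)

/-- The inverse. -/
theorem symm (h : PI G) : PI {q : N' × N | (q.2, q.1) ∈ G} := by
  refine ⟨?_, ?_, ?_⟩
  · intro p q hp hq
    exact (h.lt hp hq).symm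
  · intro p hp
    exact (h.lev hp).symm
  · intro p q hp hq
    exact h.d hp hq

theorem symm_finite (hf : G.Finite) : {q : N' × N | (q.2, q.1) ∈ G}.Finite := by
  have : {q : N' × N | (q.2, q.1) ∈ G} = Prod.swap '' G := by
    ext ⟨a, b⟩
    constructor
    · intro h
      exact ⟨(b, a), h, rfl⟩
    · rintro ⟨⟨c, d⟩, h, e⟩
      cases e
      exact h
  rw [this]
  exact hf.image _

theorem left (h : PI G) {p q : N × N'} (hp : p ∈ G) (hq : q ∈ G) {x : N} {x' : N'}
    (hpq : p.1 ≤ q.1) (hqx : q.1 < x) (hqx' : q.2 < x') (hl : TL.lev p.1 = TL.lev x)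
    (hl' : TL.lev x = TL.lev x') (h0 : TL.lev x ≠ 0) (hd : (dd q.1 x, dd q.2 x') ∈ G) :
    (dd p.1 x, dd p.2 x') ∈ G := by
  rcases eq_or_lt_of_le hpq with h1 | h1
  · have h2 := (h.eq hp hq).1 h1
    rw [h1, h2]
    exact hd
  · have h2 := (h.lt hp hq).1 h1
    have := h.lev hp
    rw [d_conv h1 hqx hl (by omega), d_conv h2 hqx' (by omega) (by omega)]
    exact h.min (h.d hp hq) hd

theorem right (h : PI G) {p q : N × N'} (hp : p ∈ G) (hq : q ∈ G) {x : N} {x' : N'}
    (hpq : q.1 ≤ p.1) (hqx : x < q.1) (hqx' : x' < q.2) (hl : TL.lev p.1 = TL.lev x)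
    (hl' : TL.lev x = TL.lev x') (h0 : TL.lev x ≠ 0) (hd : (dd x q.1, dd x' q.2) ∈ G) :
    (dd x p.1, dd x' p.2) ∈ G := by
  rcases eq_or_lt_of_le hpq with h1 | h1
  · have h2 := (h.eq hq hp).1 h1
    rw [← h1, ← h2]
    exact hd
  · have h2 := (h.lt hq hp).1 h1
    have := h.lev hp
    rw [d_conv hqx h1 hl.symm (by omega), d_conv hqx' h2 (by omega) (by omega)]
    exact h.min hd (h.d hq hp)

/-- Extension of a finite partial isomorphism by one point. -/
theorem extend (k : ℕ) : ∀ (G : Set (N × N')), PI G → G.Finite → ∀ x : N, TL.lev x = k →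
    ∃ G' : Set (N × N'), PI G' ∧ G'.Finite ∧ G ⊆ G' ∧ ∃ x' : N', (x, x') ∈ G' ∧
      ∀ p ∈ G', p ∈ G ∨ TL.lev p.1 < k ∨ p = (x, x') := by
  induction k with
  | zero =>
    intro G h hf x hx
    by_cases hin : ∃ x', (x, x') ∈ G
    · obtain ⟨x', hx'⟩ := hin
      exact ⟨G, h, hf, Subset.rfl, x', hx', fun p hp => Or.inl hp⟩
    push Not at hin
    have hne : ∀ p ∈ G, p.1 ≠ x := by
      rintro ⟨a, b⟩ hp e
      simp only at e
      subst e
      exact hin _ hp
    -- the two sides
    let Lo : Set (N × N') := {p ∈ G | TL.lev p.1 = 0 ∧ p.1 < x}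
    let Hi : Set (N × N') := {p ∈ G | TL.lev p.1 = 0 ∧ x < p.1}
    have hLof : Lo.Finite := hf.subset (fun p hp => hp.1)
    have hHif : Hi.Finite := hf.subset (fun p hp => hp.1)
    have key : ∃ x' : N', TL.lev x' = 0 ∧ (∀ p ∈ Lo, p.2 < x') ∧ (∀ p ∈ Hi, x' < p.2) := by
      rcases Lo.eq_empty_or_nonempty with hLe | hLn <;> rcases Hi.eq_empty_or_nonempty with hHe | hHn
      · obtain ⟨x', hx'⟩ := TL.ex (N := N') 0 (by norm_num)
        exact ⟨x', hx', by simp [hLe], by simp [hHe]⟩
      · obtain ⟨q, hq, hqm⟩ := Set.exists_min_image Hi (fun p => p.2) hHif hHn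
        have hq0 : TL.lev q.2 = 0 := by rw [← h.lev hq.1]; exact hq.2.1
        obtain ⟨x', hx'⟩ := noMin0 hq0
        refine ⟨x', ?_, by simp [hLe], fun p hp => lt_of_lt_of_le hx' (hqm p hp)⟩
        have := lev_mono hx'.le
        omega
      · obtain ⟨q, hq, hqm⟩ := Set.exists_max_image Lo (fun p => p.2) hLof hLn
        have hq0 : TL.lev q.2 = 0 := by rw [← h.lev hq.1]; exact hq.2.1
        obtain ⟨x', hx', hx0⟩ := noMax0 hq0
        exact ⟨x', hx0, fun p hp => lt_of_le_of_lt (hqm p hp) hx', by simp [hHe]⟩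
      · obtain ⟨q, hq, hqm⟩ := Set.exists_max_image Lo (fun p => p.2) hLof hLn
        obtain ⟨s, hs, hsm⟩ := Set.exists_min_image Hi (fun p => p.2) hHif hHn
        have hs0 : TL.lev s.2 = 0 := by rw [← h.lev hs.1]; exact hs.2.1
        have hlt : q.2 < s.2 := (h.lt hq.1 hs.1).1 (hq.2.2.trans hs.2.2)
        obtain ⟨x', hx1, hx2⟩ := dense0 hlt hs0
        refine ⟨x', ?_, fun p hp => lt_of_le_of_lt (hqm p hp) hx1,
          fun p hp => lt_of_lt_of_le hx2 (hsm p hp)⟩
        have := lev_mono hx2.le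
        omega
    obtain ⟨x', hx'0, hlo, hhi⟩ := key
    refine ⟨insert (x, x') G, h.add (by rw [hx, hx'0]) ?_, hf.insert _, subset_insert _ _, x',
      mem_insert _ _, ?_⟩
    · intro p hp hlp
      rcases lt_trichotomy p.1 x with h1 | h1 | h1
      · have h2 : p.2 < x' := hlo p ⟨hp, by omega, h1⟩
        exact ⟨⟨fun h3 => absurd h3 h1.asymm, fun h3 => absurd h3 h2.asymm⟩,
          ⟨fun _ => h2, fun _ => h1⟩, fun h3 => absurd hx h3⟩
      · exact absurd h1 (hne p hp)
      · have h2 : x' < p.2 := hhi p ⟨hp, by omega, h1⟩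
        exact ⟨⟨fun _ => h2, fun _ => h1⟩,
          ⟨fun h3 => absurd h3 h1.asymm, fun h3 => absurd h3 h2.asymm⟩, fun h3 => absurd hx h3⟩
    · intro p hp
      rcases hp with rfl | hp
      · exact Or.inr (Or.inr rfl)
      · exact Or.inl hp
  | succ k ih =>
    intro G h hf x hx
    by_cases hin : ∃ x', (x, x') ∈ G
    · obtain ⟨x', hx'⟩ := hin
      exact ⟨G, h, hf, Subset.rfl, x', hx', fun p hp => Or.inl hp⟩
    push Not at hin
    have hne : ∀ p ∈ G, p.1 ≠ x := by
      rintro ⟨a, b⟩ hp e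
      simp only at e
      subst e
      exact hin _ hp
    let Lo : Set (N × N') := {p ∈ G | TL.lev p.1 = k + 1 ∧ p.1 < x}
    let Hi : Set (N × N') := {p ∈ G | TL.lev p.1 = k + 1 ∧ x < p.1}
    have hLof : Lo.Finite := hf.subset (fun p hp => hp.1)
    have hHif : Hi.Finite := hf.subset (fun p hp => hp.1)
    -- the statement to be proved on each of the four cases
    -- first case distinction: the left neighbour and the right neighbour
    have step : ∀ y : N, TL.lev y = k + 1 → y ≠ x → ∀ G1 : Set (N × N'), PI G1 → G1.Finite →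
        G ⊆ G1 → (∀ p ∈ G1, p ∈ G ∨ TL.lev p.1 < k + 1) →
        ∃ G2 : Set (N × N'), PI G2 ∧ G2.Finite ∧ G1 ⊆ G2 ∧
          (∀ p ∈ G2, p ∈ G ∨ TL.lev p.1 < k + 1) ∧ ∃ g', (dd y x, g') ∈ G2 := by
      intro y hy hyx G1 h1 hf1 _ hnew
      have hlev : TL.lev (dd y x) = k := by
        have := d_lev (x := y) (y := x) (by omega) (by omega) hyx
        omega
      obtain ⟨G2, h2, hf2, hsub, g', hg', hnew2⟩ := ih G1 h1 hf1 (dd y x) hlev
      refine ⟨G2, h2, hf2, hsub, ?_, g', hg'⟩
      intro p hp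
      rcases hnew2 p hp with h3 | h3 | h3
      · exact hnew p h3
      · exact Or.inr (by omega)
      · exact Or.inr (by rw [h3]; simp only; omega)
    have finish : ∀ (G2 : Set (N × N')) (h2 : PI G2) (hf2 : G2.Finite) (hsub : G ⊆ G2)
        (hnew : ∀ p ∈ G2, p ∈ G ∨ TL.lev p.1 < k + 1) (x' : N') (hx' : TL.lev x' = k + 1)
        (hlo : ∀ p ∈ Lo, p.2 < x' ∧ (dd p.1 x, dd p.2 x') ∈ G2)
        (hhi : ∀ p ∈ Hi, x' < p.2 ∧ (dd x p.1, dd x' p.2) ∈ G2),
        ∃ G' : Set (N × N'), PI G' ∧ G'.Finite ∧ G ⊆ G' ∧ ∃ x' : N', (x, x') ∈ G' ∧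
          ∀ p ∈ G', p ∈ G ∨ TL.lev p.1 < k + 1 ∨ p = (x, x') := by
      intro G2 h2 hf2 hsub hnew x' hx' hlo hhi
      refine ⟨insert (x, x') G2, h2.add (by omega) ?_, hf2.insert _,
        hsub.trans (subset_insert _ _), x', mem_insert _ _, ?_⟩
      · intro p hp hlp
        have hpG : p ∈ G := by
          rcases hnew p hp with h3 | h3
          · exact h3
          · omega
        rcases lt_trichotomy p.1 x with h1 | h1 | h1
        · obtain ⟨h3, h4⟩ := hlo p ⟨hpG, by omega, h1⟩
          refine ⟨⟨fun h5 => absurd h5 h1.asymm, fun h5 => absurd h5 h3.asymm⟩,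
            ⟨fun _ => h3, fun _ => h1⟩, fun _ => ?_⟩
          have := h2.lev hp
          rw [d_symm (x := x) (by omega) (by omega), d_symm (x := x') (by omega) (by omega)]
          exact h4
        · exact absurd h1 (hne p hpG)
        · obtain ⟨h3, h4⟩ := hhi p ⟨hpG, by omega, h1⟩
          exact ⟨⟨fun _ => h3, fun _ => h1⟩,
            ⟨fun h5 => absurd h5 h1.asymm, fun h5 => absurd h5 h3.asymm⟩, fun _ => h4⟩
      · intro p hp
        rcases hp with rfl | hp
        · exact Or.inr (Or.inr rfl)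
        · rcases hnew p hp with h3 | h3
          · exact Or.inl h3
          · exact Or.inr (Or.inl h3)
    rcases Lo.eq_empty_or_nonempty with hLe | hLn <;> rcases Hi.eq_empty_or_nonempty with hHe | hHn
    · have hk : k + 1 ≤ 2 := by rw [← hx]; exact lev_le x
      obtain ⟨x', hx'⟩ := TL.ex (N := N') (k + 1) hk
      exact finish G h hf Subset.rfl (fun p hp => Or.inl hp) x' hx' (by simp [hLe]) (by simp [hHe])
    · obtain ⟨q, hq, hqm⟩ := Set.exists_min_image Hi (fun p => p.1) hHif hHn
      obtain ⟨G2, h2, hf2, hsub, hnew, g', hg'⟩ := step q.1 hq.2.1 (hne q hq.1) G h hf Subset.rfl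
        (fun p hp => Or.inl hp)
      have hlq := h.lev hq.1
      have hq1 := hq.2.1
      have hlg := d_lev (x := q.1) (y := x) (by omega) (by omega) (hne q hq.1)
      have hlg' := h2.lev hg'
      simp only at hlg'
      obtain ⟨x', hx'1, hx'2, hx'3⟩ := ext_lt (x := q.2) (g := g') (by omega)
      have hdq : (dd x q.1, dd x' q.2) ∈ G2 := by
        rw [d_symm (x := x) (by omega) (by omega), d_symm (x := x') (by omega) (by omega), hx'3]
        exact hg'
      refine finish G2 h2 hf2 hsub hnew x' (by omega) (by simp [hLe]) ?_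
      intro p hp
      have hpq : q.1 ≤ p.1 := hqm p hp
      refine ⟨lt_of_lt_of_le hx'1 ((h.le hq.1 hp.1).1 hpq), ?_⟩
      exact h2.right (hsub hp.1) (hsub hq.1) hpq hq.2.2 hx'1 (by have := hp.2.1; omega) (by omega)
        (by omega) hdq
    · obtain ⟨q, hq, hqm⟩ := Set.exists_max_image Lo (fun p => p.1) hLof hLn
      obtain ⟨G2, h2, hf2, hsub, hnew, g', hg'⟩ := step q.1 hq.2.1 (hne q hq.1) G h hf Subset.rfl
        (fun p hp => Or.inl hp)
      have hlq := h.lev hq.1
      have hq1 := hq.2.1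
      have hlg := d_lev (x := q.1) (y := x) (by omega) (by omega) (hne q hq.1)
      have hlg' := h2.lev hg'
      simp only at hlg'
      obtain ⟨x', hx'1, hx'2, hx'3⟩ := ext_gt (x := q.2) (g := g') (by omega)
      have hdq : (dd q.1 x, dd q.2 x') ∈ G2 := by
        rw [hx'3]
        exact hg'
      refine finish G2 h2 hf2 hsub hnew x' (by omega) ?_ (by simp [hHe])
      intro p hp
      have hpq : p.1 ≤ q.1 := hqm p hp
      refine ⟨lt_of_le_of_lt ((h.le hp.1 hq.1).1 hpq) hx'1, ?_⟩
      exact h2.left (hsub hp.1) (hsub hq.1) hpq hq.2.2 hx'1 (by have := hp.2.1; omega) (by omega)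
        (by omega) hdq
    · obtain ⟨q, hq, hqm⟩ := Set.exists_max_image Lo (fun p => p.1) hLof hLn
      obtain ⟨s, hs, hsm⟩ := Set.exists_min_image Hi (fun p => p.1) hHif hHn
      obtain ⟨G1, h1, hf1, hsub1, hnew1, g', hg'⟩ := step q.1 hq.2.1 (hne q hq.1) G h hf Subset.rfl
        (fun p hp => Or.inl hp)
      obtain ⟨G2, h2, hf2, hsub2, hnew, e', he'⟩ := step s.1 hs.2.1 (hne s hs.1) G1 h1 hf1 hsub1
        hnew1
      have hsub : G ⊆ G2 := hsub1.trans hsub2
      have hg2 := hsub2 hg'
      have hlq := h.lev hq.1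
      have hls := h.lev hs.1
      have hq1 := hq.2.1
      have hs1 := hs.2.1
      have hlg := d_lev (x := q.1) (y := x) (by omega) (by omega) (hne q hq.1)
      have hle := d_lev (x := s.1) (y := x) (by omega) (by omega) (hne s hs.1)
      have hlg' := h2.lev hg2
      have hle' := h2.lev he'
      simp only at hlg' hle'
      have hqs : q.1 < s.1 := hq.2.2.trans hs.2.2
      have hqs' : q.2 < s.2 := (h.lt hq.1 hs.1).1 hqs
      have hconv : dd q.1 s.1 = Min.min (dd q.1 x) (dd x s.1) :=
        d_conv hq.2.2 hs.2.2 (by omega) (by omega)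
      rw [d_symm (x := x) (y := s.1) (by omega) (by omega)] at hconv
      have hdqs : (dd q.1 s.1, dd q.2 s.2) ∈ G2 := h2.d (hsub hq.1) (hsub hs.1)
      have hdsq' : TL.lev (dd q.2 s.2) + 1 = TL.lev q.2 := d_lev (by omega) (by omega) hqs'.ne
      -- it suffices to find x' with the right distances to q.2 and s.2
      have suff : ∀ x' : N', q.2 < x' → x' < s.2 → (dd q.1 x, dd q.2 x') ∈ G2 →
          (dd x s.1, dd x' s.2) ∈ G2 →
          ∃ G' : Set (N × N'), PI G' ∧ G'.Finite ∧ G ⊆ G' ∧ ∃ x' : N', (x, x') ∈ G' ∧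
            ∀ p ∈ G', p ∈ G ∨ TL.lev p.1 < k + 1 ∨ p = (x, x') := by
        intro x' hx1 hx2 hd1 hd2
        have hlx' : TL.lev x' = k + 1 := by
          have := lev_eq_of_between hx1.le hx2.le (by omega)
          omega
        refine finish G2 h2 hf2 hsub hnew x' hlx' ?_ ?_
        · intro p hp
          have hpq : p.1 ≤ q.1 := hqm p hp
          refine ⟨lt_of_le_of_lt ((h.le hp.1 hq.1).1 hpq) hx1, ?_⟩
          exact h2.left (hsub hp.1) (hsub hq.1) hpq hq.2.2 hx1 (by have := hp.2.1; omega)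
            (by omega) (by omega) hd1
        · intro p hp
          have hpq : s.1 ≤ p.1 := hsm p hp
          refine ⟨lt_of_lt_of_le hx2 ((h.le hs.1 hp.1).1 hpq), ?_⟩
          exact h2.right (hsub hp.1) (hsub hs.1) hpq hs.2.2 hx2 (by have := hp.2.1; omega)
            (by omega) (by omega) hd2
      rcases lt_trichotomy (dd q.1 x) (dd s.1 x) with hlt | heq | hgt
      · -- closer to s
        rw [min_eq_left hlt.le] at hconv
        have e1 : dd q.2 s.2 = g' := (h2.eq hdqs hg2).1 hconv
        have hlt' : g' < e' := (h2.lt hg2 he').1 hlt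
        obtain ⟨x', hx'1, hx'2, hx'3⟩ := ext_lt (x := s.2) (g := e') (by omega)
        have hqx' : q.2 < x' := by
          by_contra hcon
          push Not at hcon
          rcases eq_or_lt_of_le hcon with h5 | h5
          · rw [h5, d_symm (by omega) (by omega), e1] at hx'3
            exact absurd hx'3 hlt'.ne
          · have h6 := d_conv h5 hqs' (by omega) (by omega)
            rw [d_symm (x := x') (y := s.2) (by omega) (by omega), hx'3, e1] at h6
            have h7 : e' ≤ g' := h6 ▸ min_le_right _ _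
            exact absurd hlt' (not_lt.2 h7)
        have h8 := d_conv hqx' hx'1 (by omega) (by omega)
        rw [d_symm (x := x') (y := s.2) (by omega) (by omega), hx'3, e1] at h8
        have h9 : dd q.2 x' = g' := by
          rcases min_choice (dd q.2 x') e' with h10 | h10
          · rw [h10] at h8
            exact h8.symm
          · rw [h10] at h8
            exact absurd h8 hlt'.ne
        refine suff x' hqx' hx'1 (by rw [h9]; exact hg2) ?_
        rw [d_symm (x := x) (by omega) (by omega), d_symm (x := x') (by omega) (by omega), hx'3]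
        exact he'
      · -- the middle
        rw [heq, min_self] at hconv
        obtain ⟨x', hx'1, hx'2, hx'3, hx'4⟩ := mid hqs' (by omega) (by omega)
        refine suff x' hx'1 hx'2 ?_ ?_
        · rw [hx'3, heq, ← hconv]
          exact hdqs
        · rw [d_symm (x := x) (by omega) (by omega), hx'4, ← hconv]
          exact hdqs
      · -- closer to q
        rw [min_eq_right hgt.le] at hconv
        have e1 : dd q.2 s.2 = e' := (h2.eq hdqs he').1 hconv
        have hlt' : e' < g' := (h2.lt he' hg2).1 hgt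
        obtain ⟨x', hx'1, hx'2, hx'3⟩ := ext_gt (x := q.2) (g := g') (by omega)
        have hqx' : x' < s.2 := by
          by_contra hcon
          push Not at hcon
          rcases eq_or_lt_of_le hcon with h5 | h5
          · rw [← h5, e1] at hx'3
            exact absurd hx'3 hlt'.ne
          · have h6 := d_conv hqs' h5 (by omega) (by omega)
            rw [hx'3, e1] at h6
            have h7 : g' ≤ e' := h6 ▸ min_le_left _ _
            exact absurd hlt' (not_lt.2 h7)
        have h8 := d_conv hx'1 hqx' (by omega) (by omega)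
        rw [hx'3, e1] at h8
        have h9 : dd x' s.2 = e' := by
          rcases min_choice g' (dd x' s.2) with h10 | h10
          · rw [h10] at h8
            exact absurd h8 hlt'.ne
          · rw [h10] at h8
            exact h8.symm
        refine suff x' hx'1 hqx' (by rw [hx'3]; exact hg2) ?_
        rw [d_symm (x := x) (by omega) (by omega), h9]
        exact he'

theorem extend' {G : Set (N × N')} (h : PI G) (hf : G.Finite) (x : N) :
    ∃ G' : Set (N × N'), PI G' ∧ G'.Finite ∧ G ⊆ G' ∧ ∃ x' : N', (x, x') ∈ G' := by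
  obtain ⟨G', h1, h2, h3, x', h4, _⟩ := extend (TL.lev x) G h hf x rfl
  exact ⟨G', h1, h2, h3, x', h4⟩

theorem extend_back {G : Set (N × N')} (h : PI G) (hf : G.Finite) (x' : N') :
    ∃ G' : Set (N × N'), PI G' ∧ G'.Finite ∧ G ⊆ G' ∧ ∃ x : N, (x, x') ∈ G' := by
  obtain ⟨G', h1, h2, h3, x, h4⟩ := extend' h.symm (symm_finite hf) x'
  refine ⟨{q : N × N' | (q.2, q.1) ∈ G'}, h1.symm, symm_finite h2, ?_, x, h4⟩
  rintro ⟨a, b⟩ hp
  exact h3 (show (b, a) ∈ {q : N' × N | (q.2, q.1) ∈ G} from hp)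

theorem realize_func {α : Type*} {K : Type*} [Lg.Structure K] (w : α → K)
    (ts : Fin 2 → Lg.Term α) :
    (Term.func (L := Lg) (Fn.d : Lg.Functions 2) ts).realize w =
      dd ((ts 0).realize w) ((ts 1).realize w) := by
  simp only [Term.realize, dd]
  congr 1
  funext i
  fin_cases i <;> rfl

theorem realize_lt {α : Type*} {K : Type*} [Lg.Structure K] [TL K] (w : α → K)
    (ts : Fin 2 → Lg.Term α) :
    Structure.RelMap (L := Lg) (Rl.lt : Lg.Relations 2) (fun i => (ts i).realize w) ↔
      (ts 0).realize w < (ts 1).realize w := by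
  rw [← TL.lt_iff]
  have : (fun i => (ts i).realize w) = ![(ts 0).realize w, (ts 1).realize w] := by
    funext i
    fin_cases i <;> rfl
  rw [this]

theorem realize_p0 {α : Type*} {K : Type*} [Lg.Structure K] [TL K] (w : α → K)
    (ts : Fin 1 → Lg.Term α) :
    Structure.RelMap (L := Lg) (Rl.p0 : Lg.Relations 1) (fun i => (ts i).realize w) ↔
      TL.lev ((ts 0).realize w) = 0 := by
  rw [← TL.p0_iff]
  have : (fun i => (ts i).realize w) = ![(ts 0).realize w] := by
    funext i
    fin_cases i; rfl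
  rw [this]

theorem realize_p1 {α : Type*} {K : Type*} [Lg.Structure K] [TL K] (w : α → K)
    (ts : Fin 1 → Lg.Term α) :
    Structure.RelMap (L := Lg) (Rl.p1 : Lg.Relations 1) (fun i => (ts i).realize w) ↔
      TL.lev ((ts 0).realize w) = 1 := by
  rw [← TL.p1_iff]
  have : (fun i => (ts i).realize w) = ![(ts 0).realize w] := by
    funext i
    fin_cases i; rfl
  rw [this]

/-- Terms respect partial isomorphisms. -/
theorem term {α : Type*} (h : PI G) {v : α → N} {v' : α → N'} (hv : ∀ i, (v i, v' i) ∈ G)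
    (t : Lg.Term α) : (t.realize v, t.realize v') ∈ G := by
  induction t with
  | var i => exact hv i
  | @func l f ts ih =>
    cases f
    have h1 := h.d (ih 0) (ih 1)
    have e1 := realize_func v ts
    have e2 := realize_func v' ts
    simp only at h1
    rw [← e1, ← e2] at h1
    exact h1

/-- Finite partial isomorphisms preserve all formulas. -/
theorem realize_bounded {α : Type*} {n : ℕ} (φ : Lg.BoundedFormula α n) :
    ∀ (G : Set (N × N')), PI G → G.Finite → ∀ (v : α → N) (v' : α → N'),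
      (∀ i, (v i, v' i) ∈ G) → ∀ (xs : Fin n → N) (xs' : Fin n → N'),
      (∀ i, (xs i, xs' i) ∈ G) → (φ.Realize v xs ↔ φ.Realize v' xs') := by
  induction φ with
  | falsum => intros; exact Iff.rfl
  | equal t₁ t₂ =>
    intro G h _ v v' hv xs xs' hxs
    have hvx : ∀ i, (Sum.elim v xs i, Sum.elim v' xs' i) ∈ G := by
      rintro (i | i)
      · exact hv i
      · exact hxs i
    exact h.eq (h.term hvx t₁) (h.term hvx t₂)
  | rel R ts =>
    intro G h _ v v' hv xs xs' hxs
    have hvx : ∀ i, (Sum.elim v xs i, Sum.elim v' xs' i) ∈ G := by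
      rintro (i | i)
      · exact hv i
      · exact hxs i
    cases R with
    | lt =>
      exact (realize_lt _ ts).trans
        ((h.lt (h.term hvx (ts 0)) (h.term hvx (ts 1))).trans (realize_lt _ ts).symm)
    | p0 =>
      have := h.lev (h.term hvx (ts 0))
      simp only at this
      refine (realize_p0 _ ts).trans (Iff.trans ?_ (realize_p0 _ ts).symm)
      rw [this]
    | p1 =>
      have := h.lev (h.term hvx (ts 0))
      simp only at this
      refine (realize_p1 _ ts).trans (Iff.trans ?_ (realize_p1 _ ts).symm)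
      rw [this]
  | imp φ₁ φ₂ ih₁ ih₂ =>
    intro G h hf v v' hv xs xs' hxs
    rw [BoundedFormula.realize_imp, BoundedFormula.realize_imp, ih₁ G h hf v v' hv xs xs' hxs,
      ih₂ G h hf v v' hv xs xs' hxs]
  | all φ ih =>
    intro G h hf v v' hv xs xs' hxs
    rw [BoundedFormula.realize_all, BoundedFormula.realize_all]
    constructor
    · intro H a'
      obtain ⟨G', h', hf', hsub, a, ha⟩ := extend_back h hf a'
      refine (ih G' h' hf' v v' (fun i => hsub (hv i)) (Fin.snoc xs a) (Fin.snoc xs' a') ?_).1 (H a)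
      intro i
      refine Fin.lastCases ?_ (fun j => ?_) i
      · simp only [Fin.snoc_last]
        exact ha
      · simp only [Fin.snoc_castSucc]
        exact hsub (hxs j)
    · intro H a
      obtain ⟨G', h', hf', hsub, a', ha⟩ := extend' h hf a
      refine (ih G' h' hf' v v' (fun i => hsub (hv i)) (Fin.snoc xs a) (Fin.snoc xs' a') ?_).2 (H a')
      intro i
      refine Fin.lastCases ?_ (fun j => ?_) i
      · simp only [Fin.snoc_last]
        exact ha
      · simp only [Fin.snoc_castSucc]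
        exact hsub (hxs j)

theorem realize {α : Type*} (φ : Lg.Formula α) {G : Set (N × N')} (h : PI G) (hf : G.Finite)
    {v : α → N} {v' : α → N'} (hv : ∀ i, (v i, v' i) ∈ G) : φ.Realize v ↔ φ.Realize v' :=
  realize_bounded φ G h hf v v' hv _ _ (fun i => i.elim0)

end PI

end Pool.Agent.W5h80.TL
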