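import Pool.Agent.W5h80.TL.Basic

set_option linter.dupNamespace false
set_option linter.unusedSectionVars false

open FirstOrder FirstOrder.Language Set

namespace Pool.Agent.W5h80.TL

open TL

variable {N : Type*} [Lg.Structure N] [TL N]

/-- Sets closed under the distance function. -/
def Closed (A : Set N) : Prop := ∀ x ∈ A, ∀ y ∈ A, dd x y ∈ A

/-- One closure step. -/
def cl1 (S : Finset N) : Finset N := S ∪ Finset.image₂ dd S S

/-- The closure. -/
def cl (S : Finset N) : Finset N := cl1 (cl1 S)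

theorem subset_cl1 (S : Finset N) : S ⊆ cl1 S := Finset.subset_union_left

theorem subset_cl (S : Finset N) : S ⊆ cl S := (subset_cl1 S).trans (subset_cl1 _)

theorem dd_mem_cl1 {S : Finset N} {x y : N} (hx : x ∈ S) (hy : y ∈ S) : dd x y ∈ cl1 S :=
  Finset.mem_union_right _ (Finset.mem_image₂_of_mem hx hy)

theorem mem_cl1_or {S : Finset N} {z : N} (hz : z ∈ cl1 S) :
    z ∈ S ∨ ∃ x ∈ S, ∃ y ∈ S, lev x = lev y ∧ dd x y = z ∧ lev z + 1 = lev x := by
  rcases Finset.mem_union.1 hz with h | h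
  · exact Or.inl h
  · obtain ⟨x, hx, y, hy, hxy⟩ := Finset.mem_image₂.1 h
    by_cases hj : lev x = 0 ∨ lev x ≠ lev y ∨ x = y
    · rw [d_junk hj] at hxy
      exact Or.inl (hxy ▸ hx)
    · push Not at hj
      obtain ⟨h0, h1, h2⟩ := hj
      refine Or.inr ⟨x, hx, y, hy, h1, hxy, ?_⟩
      rw [← hxy]
      exact d_lev h1 h0 h2

theorem closed_cl (S : Finset N) : Closed (↑(cl S) : Set N) := by
  intro x hx y hy
  by_cases hj : lev x = 0 ∨ lev x ≠ lev y ∨ x = y
  · rw [d_junk hj]
    exact hx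
  push Not at hj
  obtain ⟨h0, h1, h2⟩ := hj
  have hle := lev_le x
  have h3 : ∀ z ∈ cl S, lev z = 2 → z ∈ S := by
    intro z hz hz2
    rcases mem_cl1_or hz with h | ⟨a, ha, b, hb, hab, hd, hl⟩
    · rcases mem_cl1_or h with h | ⟨a, ha, b, hb, hab, hd, hl⟩
      · exact h
      · have := lev_le a
        omega
    · have := lev_le a
      omega
  have h4 : ∀ z ∈ cl1 S, lev z = 2 → z ∈ S := fun z hz hz2 => h3 z (subset_cl1 _ hz) hz2
  have h5 : ∀ z ∈ cl S, lev z = 1 → z ∈ cl1 S := by
    intro z hz hz1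
    rcases mem_cl1_or hz with h | ⟨a, ha, b, hb, hab, hd, hl⟩
    · exact h
    · have ha' := h4 a ha (by omega)
      have hb' := h4 b hb (by omega)
      rw [← hd]
      exact dd_mem_cl1 ha' hb'
  rcases (by omega : lev x = 1 ∨ lev x = 2) with hx1 | hx2
  · exact dd_mem_cl1 (h5 x hx hx1) (h5 y hy (by omega))
  · exact subset_cl1 _ (dd_mem_cl1 (h3 x hx hx2) (h3 y hy (by omega)))

def g1 (n : ℕ) : ℕ := n + n * n

def gg (n : ℕ) : ℕ := g1 (g1 n)

theorem g1_mono : Monotone g1 := by
  intro a b h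
  unfold g1
  have := Nat.mul_le_mul h h
  omega

theorem gg_mono : Monotone gg := fun _ _ h => g1_mono (g1_mono h)

theorem card_cl1 (S : Finset N) : (cl1 S).card ≤ g1 S.card :=
  (Finset.card_union_le _ _).trans (Nat.add_le_add_left (Finset.card_image₂_le _ _ _) _)

theorem card_cl (S : Finset N) : (cl S).card ≤ gg S.card :=
  (card_cl1 _).trans (g1_mono (card_cl1 S))

/-- The identity on a set. -/
def idG (A : Set N) : Set (N × N) := {p | p.1 = p.2 ∧ p.1 ∈ A}

theorem pi_idG {A : Set N} (hA : Closed A) : PI (idG A) := by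
  refine ⟨?_, ?_, ?_⟩
  · rintro ⟨a, b⟩ ⟨c, d⟩ ⟨h1, h2⟩ ⟨h3, h4⟩
    simp only at h1 h3
    subst h1
    subst h3
    exact Iff.rfl
  · rintro ⟨a, b⟩ ⟨h1, h2⟩
    simp only at h1
    subst h1
    rfl
  · rintro ⟨a, b⟩ ⟨c, d⟩ ⟨h1, h2⟩ ⟨h3, h4⟩
    simp only at h1 h3
    subst h1
    subst h3
    exact ⟨rfl, hA _ h2 _ h4⟩

theorem idG_finite {A : Set N} (hA : A.Finite) : (idG A).Finite := by
  refine (hA.image (fun a => (a, a))).subset ?_
  rintro ⟨a, b⟩ ⟨h1, h2⟩
  simp only at h1
  subst h1
  exact ⟨a, h2, rfl⟩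

/-- Equivalence of tuples over a set. -/
def Eqv (A : Set N) {m : ℕ} (b b' : Fin m → N) : Prop :=
  ∃ G : Set (N × N), PI G ∧ G.Finite ∧ (∀ a ∈ A, (a, a) ∈ G) ∧ ∀ j, (b j, b' j) ∈ G

theorem Eqv.symm {A : Set N} {m : ℕ} {b b' : Fin m → N} (h : Eqv A b b') : Eqv A b' b := by
  obtain ⟨G, h1, h2, h3, h4⟩ := h
  exact ⟨{q | (q.2, q.1) ∈ G}, h1.symm, PI.symm_finite h2, h3, h4⟩

theorem Eqv.trans {A : Set N} {m : ℕ} {b b' b'' : Fin m → N} (h : Eqv A b b')
    (h' : Eqv A b' b'') : Eqv A b b'' := by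
  obtain ⟨G, h1, h2, h3, h4⟩ := h
  obtain ⟨G', h1', h2', h3', h4'⟩ := h'
  refine ⟨{q | ∃ y, (q.1, y) ∈ G ∧ (y, q.2) ∈ G'}, ⟨?_, ?_, ?_⟩, ?_, fun a ha => ⟨a, h3 a ha, h3' a ha⟩,
    fun j => ⟨b' j, h4 j, h4' j⟩⟩
  · rintro p q ⟨y, hy1, hy2⟩ ⟨z, hz1, hz2⟩
    exact (h1.lt hy1 hz1).trans (h1'.lt hy2 hz2)
  · rintro p ⟨y, hy1, hy2⟩
    exact (h1.lev hy1).trans (h1'.lev hy2)
  · rintro p q ⟨y, hy1, hy2⟩ ⟨z, hz1, hz2⟩
    exact ⟨dd y z, h1.d hy1 hz1, h1'.d hy2 hz2⟩
  · have := (h2.prod h2').image (fun r : (N × N) × (N × N) => (r.1.1, r.2.2))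
    refine this.subset ?_
    rintro ⟨a, c⟩ ⟨y, hy1, hy2⟩
    exact ⟨((a, y), (y, c)), ⟨hy1, hy2⟩, rfl⟩

theorem Eqv.realize {A : Set N} {m n : ℕ} {b b' : Fin m → N} (h : Eqv A b b')
    (φ : Lg.Formula (Fin n ⊕ Fin m)) (a : Fin n → N) (ha : ∀ i, a i ∈ A) :
    φ.Realize (Sum.elim a b) ↔ φ.Realize (Sum.elim a b') := by
  obtain ⟨G, h1, h2, h3, h4⟩ := h
  refine h1.realize φ h2 ?_
  rintro (i | j)
  · exact h3 _ (ha i)
  · exact h4 j

/-! ### Cuts -/

open Classical in
/-- The basic cuts. -/
noncomputable def base (A : Finset N) : Finset (Set N) :=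
  A.image (fun a => {x | x < a}) ∪ A.image (fun a => {x | x ≤ a}) ∪
    {{x | lev x < 1}, {x | lev x < 2}}

/-- A cut on the left of a point. -/
def Lset (a : N) (S : Set N) : Set N := {x | lev x < lev a ∨ (lev x = lev a ∧ x < a ∧ dd x a ∈ S)}

/-- A cut on the right of a point. -/
def Rset (a : N) (S : Set N) : Set N :=
  {x | x ≤ a ∨ (lev a ≠ 0 ∧ lev x = lev a ∧ a < x ∧ dd x a ∉ S)}

open Classical in
/-- The family of cuts. -/
noncomputable def cuts (A : Finset N) : ℕ → Finset (Set N)
  | 0 => base A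
  | k + 1 => base A ∪ (A ×ˢ cuts A k).image (fun q => Lset q.1 q.2) ∪
      (A ×ˢ cuts A k).image (fun q => Rset q.1 q.2)

theorem base_subset (A : Finset N) (k : ℕ) : base A ⊆ cuts A k := by
  classical
  cases k with
  | zero => exact Finset.Subset.refl _
  | succ k =>
    unfold cuts
    exact (Finset.subset_union_left).trans Finset.subset_union_left

theorem cuts_subset (A : Finset N) (k : ℕ) : cuts A k ⊆ cuts A (k + 1) := by
  classical
  induction k with
  | zero => exact base_subset A 1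
  | succ k ih =>
    intro S hS
    rw [cuts] at hS ⊢
    rcases Finset.mem_union.1 hS with h | h
    · rcases Finset.mem_union.1 h with h | h
      · exact Finset.mem_union_left _ (Finset.mem_union_left _ h)
      · obtain ⟨q, hq, e⟩ := Finset.mem_image.1 h
        refine Finset.mem_union_left _ (Finset.mem_union_right _ (Finset.mem_image.2 ⟨q, ?_, e⟩))
        rw [Finset.mem_product] at hq ⊢
        exact ⟨hq.1, ih hq.2⟩
    · obtain ⟨q, hq, e⟩ := Finset.mem_image.1 h
      refine Finset.mem_union_right _ (Finset.mem_image.2 ⟨q, ?_, e⟩)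
      rw [Finset.mem_product] at hq ⊢
      exact ⟨hq.1, ih hq.2⟩

theorem card_base (A : Finset N) : (base A).card ≤ 2 * A.card + 2 := by
  classical
  unfold base
  refine (Finset.card_union_le _ _).trans ?_
  have h1 := Finset.card_union_le (A.image (fun a => {x | x < a})) (A.image (fun a => {x | x ≤ a}))
  have h2 : (A.image (fun a => {x : N | x < a})).card ≤ A.card := Finset.card_image_le
  have h3 : (A.image (fun a => {x : N | x ≤ a})).card ≤ A.card := Finset.card_image_le
  have h4 : ({{x | lev x < 1}, {x | lev x < 2}} : Finset (Set N)).card ≤ 2 := Finset.card_le_two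
  omega

theorem card_cuts_succ (A : Finset N) (k : ℕ) :
    (cuts A (k + 1)).card ≤ 2 * A.card + 2 + 2 * (A.card * (cuts A k).card) := by
  classical
  rw [cuts]
  refine (Finset.card_union_le _ _).trans ?_
  have h1 := Finset.card_union_le (base A) ((A ×ˢ cuts A k).image (fun q => Lset q.1 q.2))
  have h2 : ((A ×ˢ cuts A k).image (fun q => Lset q.1 q.2)).card ≤ (A ×ˢ cuts A k).card :=
    Finset.card_image_le
  have h3 : ((A ×ˢ cuts A k).image (fun q => Rset q.1 q.2)).card ≤ (A ×ˢ cuts A k).card :=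
    Finset.card_image_le
  rw [Finset.card_product] at h2 h3
  have h4 := card_base A
  omega

/-- The bound for the number of cuts. -/
def fc (n : ℕ) : ℕ := 2 * n + 2 + 2 * (n * (2 * n + 2 + 2 * (n * (2 * n + 2))))

theorem fc_mono : Monotone fc := by
  intro a b h
  unfold fc
  gcongr

theorem card_cuts (A : Finset N) : (cuts A 2).card ≤ fc A.card := by
  have h0 : (cuts A 0).card ≤ 2 * A.card + 2 := card_base A
  have h1 := card_cuts_succ A 0
  have h2 := card_cuts_succ A 1
  refine h2.trans ?_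
  unfold fc
  have h3 : (cuts A 1).card ≤ 2 * A.card + 2 + 2 * (A.card * (2 * A.card + 2)) := by
    refine h1.trans ?_
    gcongr
  gcongr

theorem lower_cuts (A : Finset N) (k : ℕ) :
    ∀ S ∈ cuts A k, ∀ x y : N, x ≤ y → y ∈ S → x ∈ S := by
  classical
  have hbase : ∀ S ∈ base A, ∀ x y : N, x ≤ y → y ∈ S → x ∈ S := by
    intro S hS x y hxy hy
    unfold base at hS
    rcases Finset.mem_union.1 hS with h | h
    · rcases Finset.mem_union.1 h with h | h
      · obtain ⟨a, _, rfl⟩ := Finset.mem_image.1 h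
        exact lt_of_le_of_lt hxy hy
      · obtain ⟨a, _, rfl⟩ := Finset.mem_image.1 h
        exact le_trans hxy hy
    · have := lev_mono hxy
      rcases Finset.mem_insert.1 h with h | h
      · subst h
        simp only [mem_ofPred_eq] at hy ⊢
        omega
      · rw [Finset.mem_singleton] at h
        subst h
        simp only [mem_ofPred_eq] at hy ⊢
        omega
  induction k with
  | zero => exact hbase
  | succ k ih =>
    intro S hS x y hxy hy
    rw [cuts] at hS
    rcases Finset.mem_union.1 hS with h | h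
    · rcases Finset.mem_union.1 h with h | h
      · exact hbase S h x y hxy hy
      · obtain ⟨⟨a, T⟩, hq, rfl⟩ := Finset.mem_image.1 h
        rw [Finset.mem_product] at hq
        have hT := ih T hq.2
        have hlxy := lev_mono hxy
        rcases hy with hy | ⟨hy1, hy2, hy3⟩
        · exact Or.inl (lt_of_le_of_lt hlxy hy)
        · simp only at hy1 hy2 hy3
          rcases Nat.lt_or_ge (lev x) (lev a) with h1 | h1
          · exact Or.inl h1
          · have hlx : lev x = lev a := by omega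
            refine Or.inr ⟨hlx, lt_of_le_of_lt hxy hy2, ?_⟩
            rcases eq_or_lt_of_le hxy with h2 | h2
            · simp only
              rw [h2]
              exact hy3
            · by_cases h0 : lev x = 0
              · simp only
                rw [d_junk (Or.inl h0)]
                rw [d_junk (Or.inl (by omega))] at hy3
                exact hT _ _ hxy hy3
              · refine hT _ _ ?_ hy3
                simp only
                rw [d_conv h2 hy2 (by omega) h0]
                exact min_le_right _ _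
    · obtain ⟨⟨a, T⟩, hq, rfl⟩ := Finset.mem_image.1 h
      rw [Finset.mem_product] at hq
      have hT := ih T hq.2
      have hlxy := lev_mono hxy
      rcases hy with hy | ⟨hy0, hy1, hy2, hy3⟩
      · exact Or.inl (le_trans hxy hy)
      · simp only at hy0 hy1 hy2 hy3
        rcases le_or_gt x a with h1 | h1
        · exact Or.inl h1
        · have hlx : lev x = lev a := by
            have := lev_mono h1.le
            omega
          refine Or.inr ⟨hy0, hlx, h1, ?_⟩
          simp only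
          intro h3
          apply hy3
          rcases eq_or_lt_of_le hxy with h2 | h2
          · rw [← h2]
            exact h3
          · refine hT _ _ ?_ h3
            rw [d_symm (x := y) (by omega) (by omega), d_symm (x := x) (by omega) (by omega),
              d_conv h1 h2 (by omega) (by omega)]
            exact min_le_left _ _

/-- Points not separated by the cuts. -/
def NS (A : Finset N) (k : ℕ) (x y : N) : Prop := ∀ S ∈ cuts A k, (x ∈ S ↔ y ∈ S)

theorem NS.lt {A : Finset N} {k : ℕ} {x y : N} (h : NS A k x y) {a : N} (ha : a ∈ A) :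
    x < a ↔ y < a := by
  classical
  have : {x : N | x < a} ∈ cuts A k := base_subset A k (by
    unfold base
    exact Finset.mem_union_left _ (Finset.mem_union_left _ (Finset.mem_image_of_mem _ ha)))
  exact h _ this

theorem NS.le {A : Finset N} {k : ℕ} {x y : N} (h : NS A k x y) {a : N} (ha : a ∈ A) :
    x ≤ a ↔ y ≤ a := by
  classical
  have : {x : N | x ≤ a} ∈ cuts A k := base_subset A k (by
    unfold base
    exact Finset.mem_union_left _ (Finset.mem_union_right _
      (Finset.mem_image_of_mem (fun a => {x | x ≤ a}) ha)))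
  exact h _ this

theorem NS.gt {A : Finset N} {k : ℕ} {x y : N} (h : NS A k x y) {a : N} (ha : a ∈ A) :
    a < x ↔ a < y := by
  rw [← not_le, ← not_le, h.le ha]

theorem NS.lev {A : Finset N} {k : ℕ} {x y : N} (h : NS A k x y) : lev x = lev y := by
  classical
  have h1 : {x : N | TL.lev x < 1} ∈ cuts A k := base_subset A k (by
    unfold base
    exact Finset.mem_union_right _ (Finset.mem_insert_self _ _))
  have h2 : {x : N | TL.lev x < 2} ∈ cuts A k := base_subset A k (by
    unfold base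
    exact Finset.mem_union_right _ (Finset.mem_insert_of_mem (Finset.mem_singleton_self _)))
  have h3 : TL.lev x < 1 ↔ TL.lev y < 1 := h _ h1
  have h4 : TL.lev x < 2 ↔ TL.lev y < 2 := h _ h2
  have := lev_le x
  have := lev_le y
  omega

theorem NS.eq_of_mem {A : Finset N} {k : ℕ} {x y : N} (h : NS A k x y) (hx : x ∈ A) : x = y := by
  have h1 := h.le hx
  have h2 := h.lt hx
  refine le_antisymm ?_ (h1.1 le_rfl)
  by_contra h3
  push Not at h3
  exact lt_irrefl _ (h2.2 h3)

theorem NS.dst {A : Finset N} {k : ℕ} {x y : N} (h : NS A (k + 1) x y) {a : N} (ha : a ∈ A)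
    (hl : TL.lev x = TL.lev a) (h0 : TL.lev a ≠ 0) (hxa : x ≠ a) :
    NS A k (dd x a) (dd y a) := by
  classical
  intro S hS
  have hly := h.lev
  rcases lt_or_gt_of_ne hxa with h1 | h1
  · have h2 : y < a := (h.lt ha).1 h1
    have h3 : Lset a S ∈ cuts A (k + 1) := by
      rw [cuts]
      exact Finset.mem_union_left _ (Finset.mem_union_right _
        (Finset.mem_image_of_mem (fun q : N × Set N => Lset q.1 q.2)
          (Finset.mk_mem_product ha hS)))
    have h4 := h _ h3
    constructor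
    · intro h5
      rcases h4.1 (Or.inr ⟨hl, h1, h5⟩) with h6 | h6
      · omega
      · exact h6.2.2
    · intro h5
      rcases h4.2 (Or.inr ⟨by omega, h2, h5⟩) with h6 | h6
      · omega
      · exact h6.2.2
  · have h2 : a < y := (h.gt ha).1 h1
    have h3 : Rset a S ∈ cuts A (k + 1) := by
      rw [cuts]
      exact Finset.mem_union_right _
        (Finset.mem_image_of_mem (fun q : N × Set N => Rset q.1 q.2)
          (Finset.mk_mem_product ha hS))
    have h4 := h _ h3
    constructor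
    · intro h5
      by_contra h6
      rcases h4.2 (Or.inr ⟨h0, by omega, h2, h6⟩) with h7 | h7
      · exact absurd h1 (not_lt.2 h7)
      · exact h7.2.2.2 h5
    · intro h5
      by_contra h6
      rcases h4.1 (Or.inr ⟨h0, hl, h1, h6⟩) with h7 | h7
      · exact absurd h2 (not_lt.2 h7)
      · exact h7.2.2.2 h5

/-- Points of the same level which are not separated have the same type. -/
theorem ns_claim (A : Finset N) (hA : Closed (↑A : Set N)) (k : ℕ) :
    ∀ x y : N, lev x = k → NS A k x y →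
      ∃ G : Set (N × N), PI G ∧ G.Finite ∧ idG (↑A : Set N) ⊆ G ∧ (x, y) ∈ G ∧
        ∀ p ∈ G, p ∈ idG (↑A : Set N) ∨ lev p.1 < k ∨ p = (x, y) := by
  have hid := pi_idG hA
  have hidf := idG_finite A.finite_toSet
  induction k with
  | zero =>
    intro x y hx hns
    refine ⟨insert (x, y) (idG ↑A), hid.add hns.lev ?_, hidf.insert _, subset_insert _ _,
      mem_insert _ _, ?_⟩
    · rintro ⟨a, b⟩ ⟨hab, ha⟩ _
      simp only at hab ha ⊢
      subst hab
      exact ⟨hns.lt ha, hns.gt ha, fun h => absurd hx h⟩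
    · intro p hp
      rcases hp with rfl | hp
      · exact Or.inr (Or.inr rfl)
      · exact Or.inl hp
  | succ k ih =>
    intro x y hx hns
    have hly := hns.lev
    by_cases hxA : x ∈ A
    · have := hns.eq_of_mem hxA
      subst this
      exact ⟨idG ↑A, hid, hidf, Subset.rfl, ⟨rfl, hxA⟩, fun p hp => Or.inl hp⟩
    let Lo : Set N := {a | a ∈ A ∧ lev a = k + 1 ∧ a < x}
    let Hi : Set N := {a | a ∈ A ∧ lev a = k + 1 ∧ x < a}
    have hLof : Lo.Finite := A.finite_toSet.subset (fun p hp => hp.1)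
    have hHif : Hi.Finite := A.finite_toSet.subset (fun p hp => hp.1)
    have hne : ∀ a ∈ A, a ≠ x := fun a ha e => hxA (e ▸ ha)
    have finish : ∀ (G2 : Set (N × N)) (h2 : PI G2) (hf2 : G2.Finite) (hsub : idG ↑A ⊆ G2)
        (hnew : ∀ p ∈ G2, p ∈ idG (↑A : Set N) ∨ lev p.1 < k + 1)
        (hlo : ∀ a ∈ Lo, (dd a x, dd a y) ∈ G2)
        (hhi : ∀ a ∈ Hi, (dd x a, dd y a) ∈ G2),
        ∃ G : Set (N × N), PI G ∧ G.Finite ∧ idG (↑A : Set N) ⊆ G ∧ (x, y) ∈ G ∧
          ∀ p ∈ G, p ∈ idG (↑A : Set N) ∨ lev p.1 < k + 1 ∨ p = (x, y) := by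
      intro G2 h2 hf2 hsub hnew hlo hhi
      refine ⟨insert (x, y) G2, h2.add hly ?_, hf2.insert _,
        hsub.trans (subset_insert _ _), mem_insert _ _, ?_⟩
      · rintro ⟨a, b⟩ hp hlp
        simp only at hlp ⊢
        rcases hnew _ hp with h3 | h3
        · obtain ⟨hab, ha⟩ := h3
          simp only at hab ha
          subst hab
          refine ⟨hns.lt ha, hns.gt ha, fun _ => ?_⟩
          rcases lt_trichotomy a x with h1 | h1 | h1
          · rw [d_symm (x := x) (by omega) (by omega), d_symm (x := y) (by omega) (by omega)]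
            exact hlo a ⟨ha, by omega, h1⟩
          · exact absurd h1 (hne a ha)
          · exact hhi a ⟨ha, by omega, h1⟩
        · simp only at h3
          omega
      · intro p hp
        rcases hp with rfl | hp
        · exact Or.inr (Or.inr rfl)
        · rcases hnew p hp with h3 | h3
          · exact Or.inl h3
          · exact Or.inr (Or.inl h3)
    -- one step of the induction
    have step : ∀ a ∈ A, lev a = k + 1 → ∃ G2 : Set (N × N), PI G2 ∧ G2.Finite ∧ idG ↑A ⊆ G2 ∧
        (∀ p ∈ G2, p ∈ idG (↑A : Set N) ∨ lev p.1 < k + 1) ∧ (dd x a, dd y a) ∈ G2 := by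
      intro a ha hla
      have hxa : x ≠ a := (hne a ha).symm
      have hlev : lev (dd x a) = k := by
        have := d_lev (x := x) (y := a) (by omega) (by omega) hxa
        omega
      obtain ⟨G2, h2, hf2, hsub, hmem, hnew⟩ := ih (dd x a) (dd y a) hlev
        (hns.dst ha (by omega) (by omega) hxa)
      refine ⟨G2, h2, hf2, hsub, ?_, hmem⟩
      intro p hp
      rcases hnew p hp with h3 | h3 | h3
      · exact Or.inl h3
      · exact Or.inr (by omega)
      · exact Or.inr (by rw [h3]; simp only; omega)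
    have hidmem : ∀ {G2 : Set (N × N)}, idG ↑A ⊆ G2 → ∀ a ∈ A, (a, a) ∈ G2 :=
      fun hsub a ha => hsub ⟨rfl, ha⟩
    -- extending from the nearest points
    have goLo : ∀ (G2 : Set (N × N)), PI G2 → idG ↑A ⊆ G2 → ∀ q ∈ Lo, (∀ a ∈ Lo, a ≤ q) →
        (dd x q, dd y q) ∈ G2 → ∀ a ∈ Lo, (dd a x, dd a y) ∈ G2 := by
      intro G2 h2 hsub q hq hqm hd a ha
      have hla := ha.2.1
      have hlq := hq.2.1
      refine h2.left (p := (a, a)) (q := (q, q)) (hidmem hsub a ha.1) (hidmem hsub q hq.1)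
        (hqm a ha) hq.2.2 ((hns.gt hq.1).1 hq.2.2) (by simp only; omega) hly (by omega) ?_
      simp only
      rw [d_symm (x := q) (by omega) (by omega), d_symm (x := q) (y := y) (by omega) (by omega)]
      exact hd
    have goHi : ∀ (G2 : Set (N × N)), PI G2 → idG ↑A ⊆ G2 → ∀ q ∈ Hi, (∀ a ∈ Hi, q ≤ a) →
        (dd x q, dd y q) ∈ G2 → ∀ a ∈ Hi, (dd x a, dd y a) ∈ G2 := by
      intro G2 h2 hsub q hq hqm hd a ha
      have hla := ha.2.1
      have hlq := hq.2.1
      exact h2.right (p := (a, a)) (q := (q, q)) (hidmem hsub a ha.1) (hidmem hsub q hq.1)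
        (hqm a ha) hq.2.2 ((hns.lt hq.1).1 hq.2.2) (by simp only; omega) hly (by omega) hd
    rcases Lo.eq_empty_or_nonempty with hLe | hLn <;> rcases Hi.eq_empty_or_nonempty with hHe | hHn
    · exact finish _ hid hidf Subset.rfl (fun p hp => Or.inl hp) (by simp [hLe]) (by simp [hHe])
    · obtain ⟨q, hq, hqm⟩ := Set.exists_min_image Hi id hHif hHn
      obtain ⟨G2, h2, hf2, hsub, hnew, hd⟩ := step q hq.1 hq.2.1
      exact finish G2 h2 hf2 hsub hnew (by simp [hLe]) (goHi G2 h2 hsub q hq hqm hd)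
    · obtain ⟨q, hq, hqm⟩ := Set.exists_max_image Lo id hLof hLn
      obtain ⟨G2, h2, hf2, hsub, hnew, hd⟩ := step q hq.1 hq.2.1
      exact finish G2 h2 hf2 hsub hnew (goLo G2 h2 hsub q hq hqm hd) (by simp [hHe])
    · obtain ⟨q, hq, hqm⟩ := Set.exists_max_image Lo id hLof hLn
      obtain ⟨s, hs, hsm⟩ := Set.exists_min_image Hi id hHif hHn
      have hlq := hq.2.1
      have hls := hs.2.1
      have c1 : dd q s = min (dd q x) (dd x s) := d_conv hq.2.2 hs.2.2 (by omega) (by omega)
      have c2 : dd q s = min (dd q y) (dd y s) := d_conv ((hns.gt hq.1).1 hq.2.2)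
        ((hns.lt hs.1).1 hs.2.2) (by omega) (by omega)
      have heA : dd q s ∈ A := hA q hq.1 s hs.1
      rcases min_choice (dd q x) (dd x s) with hm | hm
      · -- the distance to q is in A
        rw [hm] at c1
        have e1 : dd x q = dd q s := by rw [c1, d_symm (by omega) (by omega)]
        have ns := hns.dst hq.1 (by omega) (by omega) (hne q hq.1).symm
        have e2 : dd x q = dd y q := ns.eq_of_mem (by rw [e1]; exact heA)
        obtain ⟨G2, h2, hf2, hsub, hnew, hd⟩ := step s hs.1 hs.2.1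
        refine finish G2 h2 hf2 hsub hnew (goLo G2 h2 hsub q hq hqm ?_)
          (goHi G2 h2 hsub s hs hsm hd)
        rw [← e2, e1]
        exact hidmem hsub _ heA
      · rw [hm] at c1
        have e1 : dd x s = dd q s := c1.symm
        have ns := hns.dst hs.1 (by omega) (by omega) (hne s hs.1).symm
        have e2 : dd x s = dd y s := ns.eq_of_mem (by rw [e1]; exact heA)
        obtain ⟨G2, h2, hf2, hsub, hnew, hd⟩ := step q hq.1 hq.2.1
        refine finish G2 h2 hf2 hsub hnew (goLo G2 h2 hsub q hq hqm hd)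
          (goHi G2 h2 hsub s hs hsm ?_)
        rw [← e2, e1]
        exact hidmem hsub _ heA

/-- Points which are not separated have the same type. -/
theorem ns_eqv (A : Finset N) (hA : Closed (↑A : Set N)) (x y : N) (h : NS A 2 x y) :
    ∃ G : Set (N × N), PI G ∧ G.Finite ∧ idG (↑A : Set N) ⊆ G ∧ (x, y) ∈ G := by
  have hmono : ∀ j k, j ≤ k → NS A k x y → NS A j x y := by
    intro j k hjk hk
    have : cuts A j ⊆ cuts A k := by
      induction hjk with
      | refl => exact Finset.Subset.refl _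
      | step _ ih => exact (ih (fun S hS => hk S (cuts_subset A _ hS))).trans (cuts_subset A _)
    exact fun S hS => hk S (this hS)
  obtain ⟨G, h1, h2, h3, h4, _⟩ := ns_claim A hA (lev x) x y rfl (hmono _ _ (lev_le x) h)
  exact ⟨G, h1, h2, h3, h4⟩

/-! ### Codes -/

open Classical in
/-- The code of a point with respect to a chain of lower sets. -/
noncomputable def code (C : Finset (Set N)) (x : N) : ℕ := (C.filter (fun S => x ∈ S)).card

theorem code_le (C : Finset (Set N)) (x : N) : code C x ≤ C.card := by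
  classical
  unfold code
  exact Finset.card_filter_le _ _

theorem code_eq (C : Finset (Set N)) (hC : ∀ S ∈ C, ∀ x y : N, x ≤ y → y ∈ S → x ∈ S) {x y : N}
    (h : code C x = code C y) : ∀ S ∈ C, (x ∈ S ↔ y ∈ S) := by
  classical
  have main : ∀ x y : N, x ≤ y → code C x = code C y → ∀ S ∈ C, (x ∈ S ↔ y ∈ S) := by
    intro x y hxy h S hS
    unfold code at h
    have hsub : C.filter (fun S => y ∈ S) ⊆ C.filter (fun S => x ∈ S) := by
      intro T hT
      rw [Finset.mem_filter] at hT ⊢
      exact ⟨hT.1, hC T hT.1 x y hxy hT.2⟩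
    have heq := Finset.eq_of_subset_of_card_le hsub h.le
    have := Finset.ext_iff.1 heq S
    rw [Finset.mem_filter, Finset.mem_filter] at this
    tauto
  rcases le_total x y with hxy | hxy
  · exact main x y hxy h
  · exact fun S hS => (main y x hxy h.symm S hS).symm

/-- Polynomially bounded functions. -/
def PB (f : ℕ → ℕ) : Prop := ∃ D, ∀ n, f n ≤ (n + 2) ^ D

theorem PB.mul {f g : ℕ → ℕ} (hf : PB f) (hg : PB g) : PB (fun n => f n * g n) := by
  obtain ⟨D, hD⟩ := hf
  obtain ⟨E, hE⟩ := hg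
  refine ⟨D + E, fun n => ?_⟩
  rw [pow_add]
  exact Nat.mul_le_mul (hD n) (hE n)

theorem PB.comp {f g : ℕ → ℕ} (hf : PB f) (hg : PB g) : PB (fun n => f (g n)) := by
  obtain ⟨D, hD⟩ := hf
  obtain ⟨E, hE⟩ := hg
  refine ⟨(E + 2) * D, fun n => (hD _).trans ?_⟩
  rw [pow_mul]
  refine Nat.pow_le_pow_left ?_ _
  have h1 : 1 ≤ (n + 2) ^ E := Nat.one_le_pow _ _ (by omega)
  have h2 : (n + 2) ^ (E + 2) = (n + 2) ^ E * ((n + 2) * (n + 2)) := by ring
  have h3 : 4 ≤ (n + 2) * (n + 2) := Nat.mul_le_mul (show 2 ≤ n + 2 by omega) (show 2 ≤ n + 2 by omega)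
  have h4 := hE n
  rw [h2]
  calc g n + 2 ≤ (n + 2) ^ E * 4 := by omega
    _ ≤ _ := Nat.mul_le_mul_left _ h3

theorem PB.of_le {f g : ℕ → ℕ} (hg : PB g) (h : ∀ n, f n ≤ g n) : PB f := by
  obtain ⟨E, hE⟩ := hg
  exact ⟨E, fun n => (h n).trans (hE n)⟩

theorem pb_const (c : ℕ) : PB (fun _ => c) := by
  refine ⟨c, fun n => ?_⟩
  calc c ≤ 2 ^ c := Nat.lt_two_pow_self.le
    _ ≤ (n + 2) ^ c := Nat.pow_le_pow_left (by omega) _

theorem pb_id : PB (fun n => n) := ⟨1, fun n => by simp⟩

theorem PB.add {f g : ℕ → ℕ} (hf : PB f) (hg : PB g) : PB (fun n => f n + g n) := by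
  obtain ⟨D, hD⟩ := hf
  obtain ⟨E, hE⟩ := hg
  refine ⟨D + E + 1, fun n => ?_⟩
  have h1 : (n + 2) ^ D ≤ (n + 2) ^ (D + E) := Nat.pow_le_pow_right (by omega) (by omega)
  have h2 : (n + 2) ^ E ≤ (n + 2) ^ (D + E) := Nat.pow_le_pow_right (by omega) (by omega)
  have h3 := hD n
  have h4 := hE n
  rw [pow_succ]
  have h5 : (n + 2) ^ (D + E) * 2 ≤ (n + 2) ^ (D + E) * (n + 2) := Nat.mul_le_mul_left _ (by omega)
  change f n + g n ≤ _
  omega

theorem pb_g1 : PB g1 := pb_id.add (pb_id.mul pb_id)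

theorem pb_gg : PB gg := pb_g1.comp pb_g1

theorem pb_fc : PB fc := by
  unfold fc
  have h1 : PB (fun n => 2 * n + 2) := ((pb_const 2).mul pb_id).add (pb_const 2)
  exact h1.add ((pb_const 2).mul (pb_id.mul (h1.add ((pb_const 2).mul (pb_id.mul h1)))))

theorem PB.exists_lt {f : ℕ → ℕ} (hf : PB f) : ∃ K, f K < 2 ^ K := by
  obtain ⟨D, hD⟩ := hf
  have h1 := tendsto_pow_const_div_const_pow_of_one_lt D (r := (2 : ℝ)) (by norm_num)
  have h2 : ∀ᶠ n : ℕ in Filter.atTop, (n : ℝ) ^ D / 2 ^ n < 1 / 4 :=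
    h1.eventually (gt_mem_nhds (by norm_num))
  obtain ⟨n, hn, hn2⟩ := (h2.and (Filter.eventually_ge_atTop 2)).exists
  obtain ⟨K, rfl⟩ : ∃ K, n = K + 2 := ⟨n - 2, by omega⟩
  refine ⟨K, (hD K).trans_lt ?_⟩
  rw [div_lt_iff₀ (by positivity)] at hn
  have h3 : ((K + 2 : ℕ) : ℝ) ^ D < 2 ^ K := by
    calc ((K + 2 : ℕ) : ℝ) ^ D < 1 / 4 * 2 ^ (K + 2) := hn
      _ = 2 ^ K := by ring
  exact_mod_cast h3

/-- Extending an equivalence of first coordinates to tuples. -/
theorem exists_ext {A : Set N} {m : ℕ} {x x' : N} {G : Set (N × N)} (hG : PI G) (hf : G.Finite)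
    (hA : ∀ a ∈ A, (a, a) ∈ G) (hx : (x, x') ∈ G) (b : Fin m → N) :
    ∃ b' : Fin m → N, Eqv A (Fin.cons x b : Fin (m + 1) → N) (Fin.cons x' b') := by
  induction m with
  | zero =>
    refine ⟨Fin.elim0, G, hG, hf, hA, ?_⟩
    intro j
    refine Fin.cases ?_ (fun i => i.elim0) j
    exact hx
  | succ m ih =>
    obtain ⟨b', G', h1, h2, h3, h4⟩ := ih (Fin.init b)
    obtain ⟨G2, h5, h6, h7, y, hy⟩ := PI.extend' h1 h2 (b (Fin.last m))
    refine ⟨Fin.snoc b' y, G2, h5, h6, fun a ha => h7 (h3 a ha), ?_⟩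
    intro j
    refine Fin.cases ?_ (fun i => ?_) j
    · exact h7 (h4 0)
    · refine Fin.lastCases ?_ (fun l => ?_) i
      · simpa using hy
      · have := h7 (h4 (Fin.succ l))
        simpa [Fin.init] using this

/-- The number of types of tuples over a finite closed set is polynomially bounded. -/
theorem tuple_code (m : ℕ) : ∃ f : ℕ → ℕ, PB f ∧ Monotone f ∧
    ∀ A : Finset N, Closed (↑A : Set N) → ∃ c : (Fin m → N) → ℕ, (∀ b, c b < f A.card) ∧
      ∀ b b', c b = c b' → Eqv (↑A : Set N) b b' := by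
  classical
  induction m with
  | zero =>
    refine ⟨fun _ => 1, pb_const 1, monotone_const, fun A hA => ⟨fun _ => 0, by simp, ?_⟩⟩
    intro b b' _
    exact ⟨idG ↑A, pi_idG hA, idG_finite A.finite_toSet, fun a ha => ⟨rfl, ha⟩, fun j => j.elim0⟩
  | succ m ih =>
    obtain ⟨f, hf, hfm, H⟩ := ih
    let f1 : ℕ → ℕ := fun n => fc n + 1
    have hf1 : PB f1 := pb_fc.add (pb_const 1)
    have hf1m : Monotone f1 := fun a b h => Nat.add_le_add_right (fc_mono h) 1
    let f2 : ℕ → ℕ := fun n => f (gg (n + 1))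
    have hf2 : PB f2 := hf.comp (pb_gg.comp (pb_id.add (pb_const 1)))
    have hf2m : Monotone f2 := fun a b h => hfm (gg_mono (Nat.add_le_add_right h 1))
    refine ⟨fun n => f1 n * f2 n, hf1.mul hf2, fun a b h => Nat.mul_le_mul (hf1m h) (hf2m h), ?_⟩
    intro A hA
    -- code of the first coordinate
    let c1 : N → ℕ := code (cuts A 2)
    have hc1 : ∀ x, c1 x < f1 A.card := fun x =>
      Nat.lt_succ_of_le ((code_le _ x).trans (card_cuts A))
    have hc1' : ∀ x y, c1 x = c1 y →
        ∃ G : Set (N × N), PI G ∧ G.Finite ∧ idG (↑A : Set N) ⊆ G ∧ (x, y) ∈ G := fun x y h =>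
      ns_eqv A hA x y (code_eq _ (lower_cuts A 2) h)
    -- representatives
    have hrep : ∀ x : N, ∃ r : ℕ → N, True := fun x => ⟨fun _ => x, trivial⟩
    obtain ⟨x0, _⟩ := TL.ex (N := N) 0 (by norm_num)
    let rep : ℕ → N := fun v => if h : ∃ x, c1 x = v then Classical.choose h else x0
    have hrep : ∀ x, c1 (rep (c1 x)) = c1 x := by
      intro x
      have h : ∃ y, c1 y = c1 x := ⟨x, rfl⟩
      simp only [rep, dif_pos h]
      exact Classical.choose_spec h
    -- the transported tails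
    have htail : ∀ b : Fin (m + 1) → N, ∃ b' : Fin m → N,
        Eqv (↑A : Set N) b (Fin.cons (rep (c1 (b 0))) b') := by
      intro b
      obtain ⟨G, h1, h2, h3, h4⟩ := hc1' (b 0) (rep (c1 (b 0))) (hrep (b 0)).symm
      obtain ⟨b', hb'⟩ := exists_ext (A := (↑A : Set N)) h1 h2 (fun a ha => h3 ⟨rfl, ha⟩) h4
        (Fin.tail b)
      rw [Fin.cons_self_tail] at hb'
      exact ⟨b', hb'⟩
    choose tl htl using htail
    -- the codes of the tails
    have hcode2 : ∀ r : N, ∃ c : (Fin m → N) → ℕ, (∀ b, c b < f2 A.card) ∧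
        ∀ b b', c b = c b' → Eqv (↑(cl (insert r A)) : Set N) b b' := by
      intro r
      obtain ⟨c, hc, hc'⟩ := H (cl (insert r A)) (closed_cl _)
      refine ⟨c, fun b => (hc b).trans_le (hfm ?_), hc'⟩
      exact (card_cl _).trans (gg_mono (Finset.card_insert_le _ _))
    choose c2 hc2 hc2' using hcode2
    refine ⟨fun b => c1 (b 0) * f2 A.card + c2 (rep (c1 (b 0))) (tl b), ?_, ?_⟩
    · intro b
      have h1 := hc1 (b 0)
      have h2 := hc2 (rep (c1 (b 0))) (tl b)
      calc c1 (b 0) * f2 A.card + c2 (rep (c1 (b 0))) (tl b) < c1 (b 0) * f2 A.card + f2 A.card := by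
            omega
        _ = (c1 (b 0) + 1) * f2 A.card := by ring
        _ ≤ f1 A.card * f2 A.card := Nat.mul_le_mul_right _ h1
    · intro b b' h
      have hpos : 0 < f2 A.card := lt_of_le_of_lt (Nat.zero_le _) (hc2 (rep (c1 (b 0))) (tl b))
      have e1 : c1 (b 0) = c1 (b' 0) := by
        have h1 := congrArg (· / f2 A.card) h
        simp only at h1
        rw [Nat.add_comm, Nat.add_mul_div_right _ _ hpos, Nat.div_eq_of_lt (hc2 _ _),
          Nat.add_comm (c1 (b' 0) * f2 A.card), Nat.add_mul_div_right _ _ hpos,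
          Nat.div_eq_of_lt (hc2 _ _)] at h1
        omega
      have e2 : c2 (rep (c1 (b 0))) (tl b) = c2 (rep (c1 (b 0))) (tl b') := by
        have h2 : c1 (b 0) * f2 A.card + c2 (rep (c1 (b 0))) (tl b) =
            c1 (b' 0) * f2 A.card + c2 (rep (c1 (b' 0))) (tl b') := h
        rw [← e1] at h2
        exact Nat.add_left_cancel h2
      obtain ⟨G, h1, h2, h3, h4⟩ := hc2' _ _ _ e2
      have hmid : Eqv (↑A : Set N) (Fin.cons (rep (c1 (b 0))) (tl b) : Fin (m + 1) → N)
          (Fin.cons (rep (c1 (b 0))) (tl b')) := by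
        refine ⟨G, h1, h2, fun a ha => h3 a (subset_cl _ (Finset.mem_insert_of_mem ha)), ?_⟩
        intro j
        refine Fin.cases ?_ (fun i => ?_) j
        · exact h3 _ (subset_cl _ (Finset.mem_insert_self _ _))
        · exact h4 i
      have h5 := htl b'
      rw [← e1] at h5
      exact (htl b).trans (hmid.trans h5.symm)

/-- No formula has the independence property. -/
theorem nip (n m : ℕ) (φ : Lg.Formula (Fin n ⊕ Fin m)) : ∃ K : ℕ, ∀ a : Fin K → Fin n → N,
    ¬ ∀ J : Finset (Fin K), ∃ b : Fin m → N, ∀ i : Fin K,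
      (φ.Realize (Sum.elim (a i) b) ↔ i ∈ J) := by
  classical
  obtain ⟨f, hf, hfm, H⟩ := tuple_code (N := N) m
  have hpb : PB (fun K => f (gg (K * n))) := hf.comp (pb_gg.comp (pb_id.mul (pb_const n)))
  obtain ⟨K, hK⟩ := hpb.exists_lt
  refine ⟨K, fun a hsh => ?_⟩
  choose b hb using hsh
  let S : Finset N := Finset.univ.image (fun p : Fin K × Fin n => a p.1 p.2)
  have hS : S.card ≤ K * n := by
    refine Finset.card_image_le.trans ?_
    simp
  obtain ⟨c, hc, hc'⟩ := H (cl S) (closed_cl S)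
  have hinj : Function.Injective (fun J : Finset (Fin K) => c (b J)) := by
    intro J J' h
    have he := hc' _ _ h
    ext i
    rw [← hb J i, ← hb J' i]
    exact he.realize φ (a i) (fun j => subset_cl S (Finset.mem_image.2 ⟨(i, j), Finset.mem_univ _, rfl⟩))
  have hcard : Fintype.card (Finset (Fin K)) ≤ f (cl S).card := by
    have h1 : Function.Injective (fun J : Finset (Fin K) =>
        (⟨c (b J), hc (b J)⟩ : Fin (f (cl S).card))) := by
      intro J J' h
      exact hinj (by simpa using congrArg Fin.val h)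
    have := Fintype.card_le_of_injective _ h1
    simpa using this
  rw [Fintype.card_finset, Fintype.card_fin] at hcard
  have h2 : f (cl S).card ≤ f (gg (K * n)) := hfm ((card_cl S).trans (gg_mono hS))
  omega

/-- There is no pattern of depth two in one variable. -/
theorem dpmin (n m : ℕ) (φ : Lg.Formula (Fin 1 ⊕ Fin n)) (ψ : Lg.Formula (Fin 1 ⊕ Fin m)) :
    ∃ K : ℕ, ∀ (a : Fin K → Fin n → N) (b : Fin K → Fin m → N),
      ¬ ∀ i j : Fin K, ∃ x : Fin 1 → N,
        (∀ i' : Fin K, (φ.Realize (Sum.elim x (a i')) ↔ i' = i)) ∧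
        (∀ j' : Fin K, (ψ.Realize (Sum.elim x (b j')) ↔ j' = j)) := by
  classical
  let F : ℕ := fc (gg n) + fc (gg m)
  refine ⟨F + 2, fun a b hsh => ?_⟩
  choose x hx1 hx2 using hsh
  let SA : Fin (F + 2) → Finset N := fun i => cl (Finset.univ.image (a i))
  let SB : Fin (F + 2) → Finset N := fun j => cl (Finset.univ.image (b j))
  let C : Finset (Set N) := (Finset.univ.biUnion fun i => cuts (SA i) 2) ∪
    (Finset.univ.biUnion fun j => cuts (SB j) 2)
  have hlow : ∀ S ∈ C, ∀ x y : N, x ≤ y → y ∈ S → x ∈ S := by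
    intro S hS
    rcases Finset.mem_union.1 hS with h | h
    · obtain ⟨i, _, hi⟩ := Finset.mem_biUnion.1 h
      exact lower_cuts _ _ S hi
    · obtain ⟨i, _, hi⟩ := Finset.mem_biUnion.1 h
      exact lower_cuts _ _ S hi
  have hA : ∀ i, (cuts (SA i) 2).card ≤ fc (gg n) := by
    intro i
    refine (card_cuts _).trans (fc_mono ((card_cl _).trans (gg_mono ?_)))
    refine Finset.card_image_le.trans ?_
    simp
  have hB : ∀ i, (cuts (SB i) 2).card ≤ fc (gg m) := by
    intro i
    refine (card_cuts _).trans (fc_mono ((card_cl _).trans (gg_mono ?_)))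
    refine Finset.card_image_le.trans ?_
    simp
  have hC : C.card ≤ (F + 2) * F := by
    refine (Finset.card_union_le _ _).trans ?_
    have h1 : (Finset.univ.biUnion fun i => cuts (SA i) 2).card ≤ (F + 2) * fc (gg n) := by
      refine Finset.card_biUnion_le.trans ?_
      refine (Finset.sum_le_sum (fun i _ => hA i)).trans ?_
      simp
    have h2 : (Finset.univ.biUnion fun i => cuts (SB i) 2).card ≤ (F + 2) * fc (gg m) := by
      refine Finset.card_biUnion_le.trans ?_
      refine (Finset.sum_le_sum (fun i _ => hB i)).trans ?_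
      simp
    have h3 : (F + 2) * F = (F + 2) * fc (gg n) + (F + 2) * fc (gg m) := by
      simp only [F]
      ring
    omega
  have hreal : ∀ {l : ℕ} (A : Finset N) (θ : Lg.Formula (Fin 1 ⊕ Fin l)) (d : Fin l → N),
      (∀ j, d j ∈ A) → Closed (↑A : Set N) → ∀ y y' : Fin 1 → N, NS A 2 (y 0) (y' 0) →
      (θ.Realize (Sum.elim y d) ↔ θ.Realize (Sum.elim y' d)) := by
    intro l A θ d hd hA y y' hns
    obtain ⟨G, h1, h2, h3, h4⟩ := ns_eqv A hA _ _ hns
    refine h1.realize θ h2 ?_
    rintro (i | j)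
    · have : i = 0 := Subsingleton.elim _ _
      subst this
      exact h4
    · exact h3 ⟨rfl, hd j⟩
  have hinj : Function.Injective (fun p : Fin (F + 2) × Fin (F + 2) => code C (x p.1 p.2 0)) := by
    rintro ⟨i, j⟩ ⟨i', j'⟩ h
    simp only at h
    have hns := code_eq C hlow h
    have e1 : i = i' := by
      have h1 := hreal (SA i) φ (a i) (fun l => subset_cl _ (Finset.mem_image_of_mem _
        (Finset.mem_univ l))) (closed_cl _) (x i j) (x i' j') (fun S hS => hns S
          (Finset.mem_union_left _ (Finset.mem_biUnion.2 ⟨i, Finset.mem_univ _, hS⟩)))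
      rw [hx1, hx1] at h1
      exact h1.1 rfl
    have e2 : j = j' := by
      have h1 := hreal (SB j) ψ (b j) (fun l => subset_cl _ (Finset.mem_image_of_mem _
        (Finset.mem_univ l))) (closed_cl _) (x i j) (x i' j') (fun S hS => hns S
          (Finset.mem_union_right _ (Finset.mem_biUnion.2 ⟨j, Finset.mem_univ _, hS⟩)))
      rw [hx2, hx2] at h1
      exact h1.1 rfl
    rw [e1, e2]
  have hcard : Fintype.card (Fin (F + 2) × Fin (F + 2)) ≤ C.card + 1 := by
    have h1 : Function.Injective (fun p : Fin (F + 2) × Fin (F + 2) =>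
        (⟨code C (x p.1 p.2 0), Nat.lt_succ_of_le (code_le C _)⟩ : Fin (C.card + 1))) := by
      intro p q h
      exact hinj (by simpa using congrArg Fin.val h)
    have := Fintype.card_le_of_injective _ h1
    simpa using this
  rw [Fintype.card_prod, Fintype.card_fin] at hcard
  have h4 : (F + 2) * (F + 2) = (F + 2) * F + 2 * (F + 2) := by ring
  omega

end Pool.Agent.W5h80.TL
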