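import Pool.Agent.W5h80.TL.Basic

set_option linter.dupNamespace false
set_option linter.unusedSectionVars false

open FirstOrder FirstOrder.Language Set

namespace Pool.Agent.W5h80.TL

/-! ### First differences of finitely supported functions -/

section diff

variable {I : Type} [LinearOrder I]

/-- The finitely supported rational functions with the lexicographic order. -/
abbrev Lv (I : Type) [LinearOrder I] : Type := Lex (I →₀ ℚ)

/-- The first difference. -/
noncomputable def fd (a b : Lv I) (h : a ≠ b) : I :=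
  (Finsupp.neLocus (ofLex a) (ofLex b)).min' (Finsupp.nonempty_neLocus_iff.2 h)

theorem fd_ne (a b : Lv I) (h : a ≠ b) : ofLex a (fd a b h) ≠ ofLex b (fd a b h) :=
  Finsupp.mem_neLocus.1 (Finset.min'_mem _ _)

theorem fd_eq (a b : Lv I) (h : a ≠ b) {j : I} (hj : j < fd a b h) : ofLex a j = ofLex b j := by
  by_contra hne
  exact absurd (Finset.min'_le _ _ (Finsupp.mem_neLocus.2 hne)) (not_le.2 hj)

theorem fd_unique (a b : Lv I) (h : a ≠ b) {i : I} (h1 : ofLex a i ≠ ofLex b i)
    (h2 : ∀ j < i, ofLex a j = ofLex b j) : fd a b h = i := by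
  refine le_antisymm (Finset.min'_le _ _ (Finsupp.mem_neLocus.2 h1)) ?_
  by_contra hlt
  push Not at hlt
  exact fd_ne a b h (h2 _ hlt)

theorem fd_symm (a b : Lv I) (h : a ≠ b) : fd a b h = fd b a h.symm :=
  fd_unique a b h (fd_ne b a h.symm).symm (fun _ hj => (fd_eq b a h.symm hj).symm)

theorem lv_lt_iff (a b : Lv I) (h : a ≠ b) :
    a < b ↔ ofLex a (fd a b h) < ofLex b (fd a b h) := by
  rw [Finsupp.Lex.lt_iff]
  constructor
  · rintro ⟨i, h1, h2⟩
    rw [fd_unique a b h h2.ne h1]
    exact h2
  · intro h1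
    exact ⟨fd a b h, fun j hj => fd_eq a b h hj, h1⟩

theorem fd_conv (a b c : Lv I) (hab : a < b) (hbc : b < c) :
    fd a c (hab.trans hbc).ne = min (fd a b hab.ne) (fd b c hbc.ne) := by
  have h1 := (lv_lt_iff a b hab.ne).1 hab
  have h2 := (lv_lt_iff b c hbc.ne).1 hbc
  rcases lt_trichotomy (fd a b hab.ne) (fd b c hbc.ne) with h | h | h
  · rw [min_eq_left h.le]
    refine fd_unique _ _ _ ?_ ?_
    · rw [← fd_eq b c hbc.ne h]
      exact h1.ne
    · intro j hj
      rw [fd_eq a b hab.ne hj, fd_eq b c hbc.ne (hj.trans h)]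
  · rw [← h, min_self]
    refine fd_unique _ _ _ ?_ ?_
    · rw [← h] at h2
      exact (h1.trans h2).ne
    · intro j hj
      rw [fd_eq a b hab.ne hj, fd_eq b c hbc.ne (h ▸ hj)]
  · rw [min_eq_right h.le]
    refine fd_unique _ _ _ ?_ ?_
    · rw [fd_eq a b hab.ne h]
      exact h2.ne
    · intro j hj
      rw [fd_eq a b hab.ne (hj.trans h), fd_eq b c hbc.ne hj]

/-- Changing the value at one point. -/
noncomputable def modv (a : Lv I) (i : I) (q : ℚ) : Lv I :=
  toLex (ofLex a + Finsupp.single i q)

theorem modv_apply (a : Lv I) (i : I) (q : ℚ) (j : I) :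
    ofLex (modv a i q) j = ofLex a j + (if i = j then q else 0) := by
  classical
  simp [modv, Finsupp.single_apply]

theorem modv_self (a : Lv I) (i : I) (q : ℚ) : ofLex (modv a i q) i = ofLex a i + q := by
  rw [modv_apply]
  simp

theorem modv_of_lt (a : Lv I) {i j : I} (q : ℚ) (h : j < i) : ofLex (modv a i q) j = ofLex a j := by
  rw [modv_apply, if_neg h.ne', add_zero]

theorem ne_modv (a : Lv I) (i : I) {q : ℚ} (hq : q ≠ 0) : a ≠ modv a i q := by
  intro h
  have h1 := congrArg (fun z : Lv I => ofLex z i) h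
  simp only [modv_self] at h1
  apply hq
  linarith

theorem fd_modv (a : Lv I) (i : I) {q : ℚ} (hq : q ≠ 0) : fd a (modv a i q) (ne_modv a i hq) = i :=
  fd_unique _ _ _ (by rw [modv_self]; intro h; apply hq; linarith)
    (fun _ hj => (modv_of_lt a q hj).symm)

theorem lt_modv (a : Lv I) (i : I) {q : ℚ} (hq : 0 < q) : a < modv a i q := by
  rw [lv_lt_iff a _ (ne_modv a i hq.ne'), fd_modv a i hq.ne', modv_self]
  linarith

theorem modv_lt (a : Lv I) (i : I) {q : ℚ} (hq : q < 0) : modv a i q < a := by
  have hne := ne_modv a i hq.ne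
  rw [lv_lt_iff _ a hne.symm, ← fd_symm a _ hne, fd_modv a i hq.ne, modv_self]
  linarith

end diff

/-! ### The countable model -/

/-- Level 1 of the model. -/
abbrev G0 : Type := Lv ℚ

/-- Level 2 of the model. -/
abbrev V0 : Type := Lv G0

/-- The countable model. -/
inductive Mod : Type
  | c : ℚ → Mod
  | g : G0 → Mod
  | v : V0 → Mod

namespace Mod

/-- The embedding in a lexicographic sum. -/
def emb : Mod → ℚ ⊕ₗ (G0 ⊕ₗ V0)
  | c q => toLex (Sum.inl q)
  | g x => toLex (Sum.inr (toLex (Sum.inl x)))
  | v x => toLex (Sum.inr (toLex (Sum.inr x)))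

theorem emb_injective : Function.Injective emb := by
  intro a b h
  cases a <;> cases b <;> simp [emb] at h <;> simp [h]

noncomputable instance : LinearOrder Mod := LinearOrder.lift' emb emb_injective

theorem lt_def (a b : Mod) : a < b ↔ emb a < emb b := Iff.rfl

@[simp] theorem c_lt_c {a b : ℚ} : c a < c b ↔ a < b := by
  rw [lt_def]; simp [emb]

@[simp] theorem g_lt_g {a b : G0} : g a < g b ↔ a < b := by
  rw [lt_def]; simp [emb]

@[simp] theorem v_lt_v {a b : V0} : v a < v b ↔ a < b := by
  rw [lt_def]; simp [emb]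

@[simp] theorem c_lt_g {a : ℚ} {b : G0} : c a < g b := by
  rw [lt_def]; simp [emb]

@[simp] theorem c_lt_v {a : ℚ} {b : V0} : c a < v b := by
  rw [lt_def]; simp [emb]

@[simp] theorem g_lt_v {a : G0} {b : V0} : g a < v b := by
  rw [lt_def]; simp [emb]

@[simp] theorem not_g_lt_c {a : G0} {b : ℚ} : ¬ g a < c b := c_lt_g.asymm

@[simp] theorem not_v_lt_c {a : V0} {b : ℚ} : ¬ v a < c b := c_lt_v.asymm

@[simp] theorem not_v_lt_g {a : V0} {b : G0} : ¬ v a < g b := g_lt_v.asymm

/-- The level. -/
def level : Mod → ℕ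
  | c _ => 0
  | g _ => 1
  | v _ => 2

open Classical in
/-- The distance. -/
noncomputable def dist : Mod → Mod → Mod
  | g a, g b => if h : a = b then g a else c (fd a b h)
  | v a, v b => if h : a = b then v a else g (fd a b h)
  | x, _ => x

noncomputable instance : Lg.Structure Mod where
  funMap := fun {n} (f : Fn n) => match n, f with
    | _, Fn.d => fun xs => dist (xs 0) (xs 1)
  RelMap := fun {n} (r : Rl n) => match n, r with
    | _, Rl.lt => fun xs => xs 0 < xs 1
    | _, Rl.p0 => fun xs => level (xs 0) = 0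
    | _, Rl.p1 => fun xs => level (xs 0) = 1

theorem dd_eq (x y : Mod) : dd x y = dist x y := rfl

theorem dist_gg {a b : G0} (h : a ≠ b) : dist (g a) (g b) = c (fd a b h) := by
  simp [dist, h]

theorem dist_vv {a b : V0} (h : a ≠ b) : dist (v a) (v b) = g (fd a b h) := by
  simp [dist, h]

theorem lt_of_level_lt {a b : Mod} (h : level a < level b) : a < b := by
  cases a <;> cases b <;> simp [level] at h ⊢

noncomputable instance : TL Mod where
  lt_iff := fun _ _ => Iff.rfl
  lev := level
  lev_le := by rintro (_ | _ | _) <;> simp [level]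
  p0_iff := fun _ => Iff.rfl
  p1_iff := fun _ => Iff.rfl
  lev_mono := by
    intro a b h
    by_contra hlt
    push Not at hlt
    exact absurd h (not_le.2 (lt_of_level_lt hlt))
  d_junk := by
    rintro (a | a | a) (b | b | b) h <;> simp [dd_eq, dist, level] at h ⊢ <;> exact h
  d_lev := by
    rintro (a | a | a) (b | b | b) h0 h1 h2
    all_goals simp only [level] at h0 h1
    all_goals try omega
    · have hne : a ≠ b := fun h => h2 (by rw [h])
      rw [dd_eq, dist_gg hne]
      rfl
    · have hne : a ≠ b := fun h => h2 (by rw [h])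
      rw [dd_eq, dist_vv hne]
      rfl
  d_symm := by
    rintro (a | a | a) (b | b | b) h0 h1
    all_goals simp only [level] at h0 h1
    all_goals try omega
    · by_cases hne : a = b
      · rw [hne]
      · rw [dd_eq, dist_gg hne, dd_eq, dist_gg (Ne.symm hne), fd_symm]
    · by_cases hne : a = b
      · rw [hne]
      · rw [dd_eq, dist_vv hne, dd_eq, dist_vv (Ne.symm hne), fd_symm]
  d_conv := by
    rintro (x | x | x) (y | y | y) (z | z | z) hxy hyz h0 h1
    all_goals simp only [level] at h0 h1
    all_goals try omega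
    all_goals try simp at hxy
    all_goals try simp at hyz
    · have h3 := fd_conv x y z hxy hyz
      rw [dd_eq, dd_eq, dd_eq, dist_gg (hxy.trans hyz).ne, dist_gg hxy.ne, dist_gg hyz.ne, h3]
      rcases le_total (fd x y hxy.ne) (fd y z hyz.ne) with h | h
      · rw [min_eq_left h, min_eq_left]
        rw [← not_lt, c_lt_c, not_lt]
        exact h
      · rw [min_eq_right h, min_eq_right]
        rw [← not_lt, c_lt_c, not_lt]
        exact h
    · have h3 := fd_conv x y z hxy hyz
      rw [dd_eq, dd_eq, dd_eq, dist_vv (hxy.trans hyz).ne, dist_vv hxy.ne, dist_vv hyz.ne, h3]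
      rcases le_total (fd x y hxy.ne) (fd y z hyz.ne) with h | h
      · rw [min_eq_left h, min_eq_left]
        rw [← not_lt, g_lt_g, not_lt]
        exact h
      · rw [min_eq_right h, min_eq_right]
        rw [← not_lt, g_lt_g, not_lt]
        exact h
  ext_lt := by
    rintro (x | x | x) (y | y | y) h0
    all_goals simp only [level] at h0
    all_goals try omega
    · refine ⟨g (modv x y (-1)), ?_, rfl, ?_⟩
      · rw [g_lt_g]
        exact modv_lt x y (by norm_num)
      · rw [dd_eq, dist_gg (ne_modv x y (by norm_num)), fd_modv x y (by norm_num)]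
    · refine ⟨v (modv x y (-1)), ?_, rfl, ?_⟩
      · rw [v_lt_v]
        exact modv_lt x y (by norm_num)
      · rw [dd_eq, dist_vv (ne_modv x y (by norm_num)), fd_modv x y (by norm_num)]
  ext_gt := by
    rintro (x | x | x) (y | y | y) h0
    all_goals simp only [level] at h0
    all_goals try omega
    · refine ⟨g (modv x y 1), ?_, rfl, ?_⟩
      · rw [g_lt_g]
        exact lt_modv x y (by norm_num)
      · rw [dd_eq, dist_gg (ne_modv x y (by norm_num)), fd_modv x y (by norm_num)]
    · refine ⟨v (modv x y 1), ?_, rfl, ?_⟩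
      · rw [v_lt_v]
        exact lt_modv x y (by norm_num)
      · rw [dd_eq, dist_vv (ne_modv x y (by norm_num)), fd_modv x y (by norm_num)]
  mid := by
    have key : ∀ {I : Type} [LinearOrder I] (x y : Lv I) (hxy : x < y),
        ∃ z, ∃ (h1 : x < z) (h2 : z < y), fd x z h1.ne = fd x y hxy.ne ∧
          fd z y h2.ne = fd x y hxy.ne := by
      intro I _ x y hxy
      set i := fd x y hxy.ne with hi
      have hlt : ofLex x i < ofLex y i := (lv_lt_iff x y hxy.ne).1 hxy
      set q : ℚ := (ofLex y i - ofLex x i) / 2 with hq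
      have hq0 : 0 < q := by rw [hq]; linarith
      have h1 : x < modv x i q := lt_modv x i hq0
      have e1 : fd x (modv x i q) h1.ne = i := fd_modv x i hq0.ne'
      have hval : ofLex (modv x i q) i < ofLex y i := by rw [modv_self]; linarith
      have hne : modv x i q ≠ y := by
        intro h
        rw [h] at hval
        exact lt_irrefl _ hval
      have e2 : fd (modv x i q) y hne = i := by
        refine fd_unique _ _ _ hval.ne ?_
        intro j hj
        rw [modv_of_lt x q hj, fd_eq x y hxy.ne hj]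
      have h2 : modv x i q < y := by
        rw [lv_lt_iff _ _ hne, e2]
        exact hval
      exact ⟨modv x i q, h1, h2, e1, e2⟩
    rintro (x | x | x) (y | y | y) hxy h0 h1
    all_goals simp only [level] at h0 h1
    all_goals try omega
    · rw [g_lt_g] at hxy
      obtain ⟨z, h1, h2, e1, e2⟩ := key x y hxy
      refine ⟨g z, g_lt_g.2 h1, g_lt_g.2 h2, ?_, ?_⟩
      · rw [dd_eq, dd_eq, dist_gg h1.ne, dist_gg hxy.ne, e1]
      · rw [dd_eq, dd_eq, dist_gg h2.ne, dist_gg hxy.ne, e2]
    · rw [v_lt_v] at hxy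
      obtain ⟨z, h1, h2, e1, e2⟩ := key x y hxy
      refine ⟨v z, v_lt_v.2 h1, v_lt_v.2 h2, ?_, ?_⟩
      · rw [dd_eq, dd_eq, dist_vv h1.ne, dist_vv hxy.ne, e1]
      · rw [dd_eq, dd_eq, dist_vv h2.ne, dist_vv hxy.ne, e2]
  dense0 := by
    rintro (x | x | x) (y | y | y) hxy h0
    all_goals simp only [level] at h0
    all_goals try omega
    all_goals try simp at hxy
    obtain ⟨z, h1, h2⟩ := exists_between hxy
    exact ⟨c z, c_lt_c.2 h1, c_lt_c.2 h2⟩
  noMin0 := by
    rintro (x | x | x) h0
    all_goals simp only [level] at h0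
    all_goals try omega
    obtain ⟨z, h1⟩ := exists_lt x
    exact ⟨c z, c_lt_c.2 h1⟩
  noMax0 := by
    rintro (x | x | x) h0
    all_goals simp only [level] at h0
    all_goals try omega
    obtain ⟨z, h1⟩ := exists_gt x
    exact ⟨c z, c_lt_c.2 h1, rfl⟩
  ex := by
    intro k hk
    rcases (by omega : k = 0 ∨ k = 1 ∨ k = 2) with rfl | rfl | rfl
    · exact ⟨c 0, rfl⟩
    · exact ⟨g 0, rfl⟩
    · exact ⟨v 0, rfl⟩

theorem countable : Countable Mod := by
  have : Countable G0 := inferInstanceAs (Countable (ℚ →₀ ℚ))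
  have : Countable V0 := inferInstanceAs (Countable (G0 →₀ ℚ))
  have : Function.Injective (fun x : Mod => (match x with
    | c q => Sum.inl q
    | g x => Sum.inr (Sum.inl x)
    | v x => Sum.inr (Sum.inr x) : ℚ ⊕ (G0 ⊕ V0))) := by
    intro a b h
    cases a <;> cases b <;> simp at h <;> simp [h]
  exact this.countable

end Mod

end Pool.Agent.W5h80.TL
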