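import Pool.Agent.W5h80.TL.Model

set_option linter.dupNamespace false
set_option linter.unusedSectionVars false

open FirstOrder FirstOrder.Language Set

namespace Pool.Agent.W5h80.TL

section raw

variable {N : Type*} [Lg.Structure N]

/-- The order relation. -/
def rr (x y : N) : Prop := Structure.RelMap (L := Lg) (Rl.lt : Lg.Relations 2) ![x, y]

/-- The first predicate. -/
def q0 (x : N) : Prop := Structure.RelMap (L := Lg) (Rl.p0 : Lg.Relations 1) ![x]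

/-- The second predicate. -/
def q1 (x : N) : Prop := Structure.RelMap (L := Lg) (Rl.p1 : Lg.Relations 1) ![x]

/-- Same level. -/
def sm (x y : N) : Prop := (q0 x ↔ q0 y) ∧ (q1 x ↔ q1 y)

/-- One level up. -/
def up (x g : N) : Prop := (q1 x ∧ q0 g) ∨ (¬ q0 x ∧ ¬ q1 x ∧ q1 g)

end raw

section formulas

variable {α : Type*} {n : ℕ}

/-- Order formula. -/
def fR (s t : Lg.Term (α ⊕ Fin n)) : Lg.BoundedFormula α n :=
  Relations.boundedFormula₂ (Rl.lt : Lg.Relations 2) s t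

/-- First predicate. -/
def f0 (s : Lg.Term (α ⊕ Fin n)) : Lg.BoundedFormula α n :=
  Relations.boundedFormula₁ (Rl.p0 : Lg.Relations 1) s

/-- Second predicate. -/
def f1 (s : Lg.Term (α ⊕ Fin n)) : Lg.BoundedFormula α n :=
  Relations.boundedFormula₁ (Rl.p1 : Lg.Relations 1) s

/-- Distance term. -/
def tD {β : Type*} (s t : Lg.Term β) : Lg.Term β :=
  Functions.apply₂ (Fn.d : Lg.Functions 2) s t

/-- Same level. -/
def fS (s t : Lg.Term (α ⊕ Fin n)) : Lg.BoundedFormula α n :=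
  ((f0 s).iff (f0 t)) ⊓ ((f1 s).iff (f1 t))

/-- One level up. -/
def fU (s t : Lg.Term (α ⊕ Fin n)) : Lg.BoundedFormula α n :=
  ((f1 s) ⊓ (f0 t)) ⊔ (((f0 s).not ⊓ (f1 s).not) ⊓ (f1 t))

variable {N : Type*} [Lg.Structure N] (w : α → N) (xs : Fin n → N)

@[simp] theorem realize_fR (s t : Lg.Term (α ⊕ Fin n)) :
    (fR s t).Realize w xs ↔ rr (s.realize (Sum.elim w xs)) (t.realize (Sum.elim w xs)) :=
  BoundedFormula.realize_rel₂

@[simp] theorem realize_f0 (s : Lg.Term (α ⊕ Fin n)) :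
    (f0 s).Realize w xs ↔ q0 (s.realize (Sum.elim w xs)) :=
  BoundedFormula.realize_rel₁

@[simp] theorem realize_f1 (s : Lg.Term (α ⊕ Fin n)) :
    (f1 s).Realize w xs ↔ q1 (s.realize (Sum.elim w xs)) :=
  BoundedFormula.realize_rel₁

@[simp] theorem realize_tD {β : Type*} (w : β → N) (s t : Lg.Term β) :
    (tD s t).realize w = dd (s.realize w) (t.realize w) :=
  Term.realize_functions_apply₂

@[simp] theorem realize_fS (s t : Lg.Term (α ⊕ Fin n)) :
    (fS s t).Realize w xs ↔ sm (s.realize (Sum.elim w xs)) (t.realize (Sum.elim w xs)) := by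
  simp [fS, sm]

@[simp] theorem realize_fU (s t : Lg.Term (α ⊕ Fin n)) :
    (fU s t).Realize w xs ↔ up (s.realize (Sum.elim w xs)) (t.realize (Sum.elim w xs)) := by
  simp [fU, up, and_assoc]

end formulas

section sentences

/-- The axioms, as sentences. -/
def sen : Fin 18 → Lg.Sentence :=
  ![
    ∀' (fR (&0) (&0)).not,
    ∀' ∀' ∀' ((fR (&0) (&1)).imp ((fR (&1) (&2)).imp (fR (&0) (&2)))),
    ∀' ∀' ((fR (&0) (&1)) ⊔ (Term.bdEqual (&0) (&1)) ⊔ (fR (&1) (&0))),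
    ∀' ((f0 (&0)) ⊓ (f1 (&0))).not,
    ∀' ∀' ((fR (&0) (&1)).imp (((f0 (&1)).imp (f0 (&0))) ⊓ ((f1 (&1)).imp ((f0 (&0)) ⊔ (f1 (&0)))))),
    ∀' ∀' (((f0 (&0)) ⊔ (fS (&0) (&1)).not ⊔ (Term.bdEqual (&0) (&1))).imp
      (Term.bdEqual (tD (&0) (&1)) (&0))),
    ∀' ∀' ((fS (&0) (&1)).imp ((f0 (&0)).not.imp ((Term.bdEqual (&0) (&1)).not.imp
      (((f1 (&0)).imp (f0 (tD (&0) (&1)))) ⊓ ((f1 (&0)).not.imp (f1 (tD (&0) (&1)))))))),
    ∀' ∀' ((fS (&0) (&1)).imp ((f0 (&0)).not.imp (Term.bdEqual (tD (&0) (&1)) (tD (&1) (&0))))),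
    ∀' ∀' ∀' ((fR (&0) (&1)).imp ((fR (&1) (&2)).imp ((fS (&0) (&2)).imp ((f0 (&0)).not.imp
      (((Term.bdEqual (tD (&0) (&2)) (tD (&0) (&1))) ⊓ (fR (tD (&1) (&2)) (tD (&0) (&1))).not) ⊔
        ((Term.bdEqual (tD (&0) (&2)) (tD (&1) (&2))) ⊓ (fR (tD (&0) (&1)) (tD (&1) (&2))).not)))))),
    ∀' ∀' ((fU (&0) (&1)).imp
      (∃' ((fR (&2) (&0)) ⊓ ((fS (&2) (&0)) ⊓ (Term.bdEqual (tD (&0) (&2)) (&1)))))),
    ∀' ∀' ((fU (&0) (&1)).imp
      (∃' ((fR (&0) (&2)) ⊓ ((fS (&2) (&0)) ⊓ (Term.bdEqual (tD (&0) (&2)) (&1)))))),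
    ∀' ∀' ((fR (&0) (&1)).imp ((fS (&0) (&1)).imp ((f0 (&0)).not.imp
      (∃' ((fR (&0) (&2)) ⊓ ((fR (&2) (&1)) ⊓ ((Term.bdEqual (tD (&0) (&2)) (tD (&0) (&1))) ⊓
        (Term.bdEqual (tD (&2) (&1)) (tD (&0) (&1)))))))))),
    ∀' ∀' ((fR (&0) (&1)).imp ((f0 (&1)).imp (∃' ((fR (&0) (&2)) ⊓ (fR (&2) (&1)))))),
    ∀' ((f0 (&0)).imp (∃' (fR (&1) (&0)))),
    ∀' ((f0 (&0)).imp (∃' ((fR (&0) (&1)) ⊓ (f0 (&1))))),
    ∃' (f0 (&0)),
    ∃' (f1 (&0)),
    ∃' ((f0 (&0)).not ⊓ (f1 (&0)).not)]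

/-- The axioms. -/
def Ax (N : Type*) [Lg.Structure N] : Fin 18 → Prop :=
  ![
    ∀ x : N, ¬ rr x x,
    ∀ x y z : N, rr x y → rr y z → rr x z,
    ∀ x y : N, (rr x y ∨ x = y) ∨ rr y x,
    ∀ x : N, ¬ (q0 x ∧ q1 x),
    ∀ x y : N, rr x y → (q0 y → q0 x) ∧ (q1 y → q0 x ∨ q1 x),
    ∀ x y : N, ((q0 x ∨ ¬ sm x y) ∨ x = y) → dd x y = x,
    ∀ x y : N, sm x y → ¬ q0 x → ¬ x = y → (q1 x → q0 (dd x y)) ∧ (¬ q1 x → q1 (dd x y)),
    ∀ x y : N, sm x y → ¬ q0 x → dd x y = dd y x,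
    ∀ x y z : N, rr x y → rr y z → sm x z → ¬ q0 x →
      (dd x z = dd x y ∧ ¬ rr (dd y z) (dd x y)) ∨ (dd x z = dd y z ∧ ¬ rr (dd x y) (dd y z)),
    ∀ x g : N, up x g → ∃ y : N, rr y x ∧ sm y x ∧ dd x y = g,
    ∀ x g : N, up x g → ∃ y : N, rr x y ∧ sm y x ∧ dd x y = g,
    ∀ x y : N, rr x y → sm x y → ¬ q0 x →
      ∃ z : N, rr x z ∧ rr z y ∧ dd x z = dd x y ∧ dd z y = dd x y,
    ∀ x y : N, rr x y → q0 y → ∃ z : N, rr x z ∧ rr z y,
    ∀ x : N, q0 x → ∃ y : N, rr y x,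
    ∀ x : N, q0 x → ∃ y : N, rr x y ∧ q0 y,
    ∃ x : N, q0 x,
    ∃ x : N, q1 x,
    ∃ x : N, ¬ q0 x ∧ ¬ q1 x]

theorem realize_sen (N : Type*) [Lg.Structure N] (k : Fin 18) : N ⊨ sen k ↔ Ax N k := by
  fin_cases k <;>
  simp [sen, Ax, Sentence.Realize, Formula.Realize, BoundedFormula.realize_all,
    BoundedFormula.realize_ex, BoundedFormula.realize_bdEqual, Fin.snoc]

end sentences

/-! ### From structures with levels to the axioms -/

section toAx

variable {N : Type*} [Lg.Structure N] [TL N]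

theorem rr_iff (x y : N) : rr x y ↔ x < y := TL.lt_iff x y

theorem q0_iff (x : N) : q0 x ↔ TL.lev x = 0 := TL.p0_iff x

theorem q1_iff (x : N) : q1 x ↔ TL.lev x = 1 := TL.p1_iff x

theorem sm_iff (x y : N) : sm x y ↔ TL.lev x = TL.lev y := by
  have := TL.lev_le x
  have := TL.lev_le y
  rw [sm, q0_iff, q0_iff, q1_iff, q1_iff]
  omega

theorem up_iff (x g : N) : up x g ↔ TL.lev x = TL.lev g + 1 := by
  have := TL.lev_le x
  have := TL.lev_le g
  rw [up, q0_iff, q0_iff, q1_iff, q1_iff]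
  omega

theorem ax_of_tl (N : Type*) [Lg.Structure N] [TL N] (k : Fin 18) : Ax N k := by
  fin_cases k <;> simp only [Ax]
  · intro x
    rw [rr_iff]
    exact lt_irrefl x
  · intro x y z
    rw [rr_iff, rr_iff, rr_iff]
    exact lt_trans
  · intro x y
    rw [rr_iff, rr_iff]
    rcases lt_trichotomy x y with h | h | h
    · exact Or.inl (Or.inl h)
    · exact Or.inl (Or.inr h)
    · exact Or.inr h
  · rintro x ⟨h1, h2⟩
    rw [q0_iff] at h1
    rw [q1_iff] at h2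
    omega
  · intro x y h
    rw [rr_iff] at h
    have := TL.lev_mono h.le
    rw [q0_iff, q0_iff, q1_iff, q1_iff]
    omega
  · intro x y h
    rw [q0_iff, sm_iff] at h
    apply TL.d_junk
    tauto
  · intro x y h1 h2 h3
    rw [sm_iff] at h1
    rw [q0_iff] at h2
    have := TL.d_lev h1 h2 h3
    have := TL.lev_le x
    rw [q0_iff, q1_iff, q1_iff]
    omega
  · intro x y h1 h2
    rw [sm_iff] at h1
    rw [q0_iff] at h2
    exact TL.d_symm h1 h2
  · intro x y z h1 h2 h3 h4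
    rw [rr_iff] at h1 h2
    rw [sm_iff] at h3
    rw [q0_iff] at h4
    rw [rr_iff, rr_iff, not_lt, not_lt, TL.d_conv h1 h2 h3 h4]
    rcases le_total (dd x y) (dd y z) with h | h
    · exact Or.inl ⟨min_eq_left h, h⟩
    · exact Or.inr ⟨min_eq_right h, h⟩
  · intro x g h
    rw [up_iff] at h
    obtain ⟨y, h1, h2, h3⟩ := TL.ext_lt h
    exact ⟨y, (rr_iff _ _).2 h1, (sm_iff _ _).2 h2, h3⟩
  · intro x g h
    rw [up_iff] at h
    obtain ⟨y, h1, h2, h3⟩ := TL.ext_gt h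
    exact ⟨y, (rr_iff _ _).2 h1, (sm_iff _ _).2 h2, h3⟩
  · intro x y h1 h2 h3
    rw [rr_iff] at h1
    rw [sm_iff] at h2
    rw [q0_iff] at h3
    obtain ⟨z, h4, h5, h6, h7⟩ := TL.mid h1 h2 h3
    exact ⟨z, (rr_iff _ _).2 h4, (rr_iff _ _).2 h5, h6, h7⟩
  · intro x y h1 h2
    rw [rr_iff] at h1
    rw [q0_iff] at h2
    obtain ⟨z, h3, h4⟩ := TL.dense0 h1 h2
    exact ⟨z, (rr_iff _ _).2 h3, (rr_iff _ _).2 h4⟩
  · intro x h
    rw [q0_iff] at h
    obtain ⟨y, h1⟩ := TL.noMin0 h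
    exact ⟨y, (rr_iff _ _).2 h1⟩
  · intro x h
    rw [q0_iff] at h
    obtain ⟨y, h1, h2⟩ := TL.noMax0 h
    exact ⟨y, (rr_iff _ _).2 h1, (q0_iff _).2 h2⟩
  · obtain ⟨x, hx⟩ := TL.ex (N := N) 0 (by norm_num)
    exact ⟨x, (q0_iff _).2 hx⟩
  · obtain ⟨x, hx⟩ := TL.ex (N := N) 1 (by norm_num)
    exact ⟨x, (q1_iff _).2 hx⟩
  · obtain ⟨x, hx⟩ := TL.ex (N := N) 2 (by norm_num)
    refine ⟨x, ?_, ?_⟩
    · rw [q0_iff]
      omega
    · rw [q1_iff]
      omega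

end toAx

/-! ### From the axioms to structures with levels -/

section ofAx

variable {N : Type*} [Lg.Structure N]

open Classical in
/-- The level. -/
noncomputable def lv (x : N) : ℕ := if q0 x then 0 else if q1 x then 1 else 2

open Classical in
/-- The linear order. -/
@[reducible] noncomputable def mkLO (h : ∀ k, Ax N k) : LinearOrder N :=
  have h0 : ∀ x : N, ¬ rr x x := h 0
  have h1 : ∀ x y z : N, rr x y → rr y z → rr x z := h 1
  have h2 : ∀ x y : N, (rr x y ∨ x = y) ∨ rr y x := h 2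
  have : IsStrictTotalOrder N rr :=
    { trichotomous := fun a b ha hb => by
        rcases h2 a b with (h | h) | h
        · exact absurd h ha
        · exact h
        · exact absurd h hb
      irrefl := h0
      trans := h1 }
  linearOrderOfSTO rr

theorem lv_le (x : N) : lv x ≤ 2 := by
  unfold lv
  split_ifs <;> omega

theorem q0_iff_lv (x : N) : q0 x ↔ lv x = 0 := by
  unfold lv
  split_ifs <;> simp [*]

theorem q1_iff_lv (h : ∀ k, Ax N k) (x : N) : q1 x ↔ lv x = 1 := by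
  have h3 : ∀ x : N, ¬ (q0 x ∧ q1 x) := h 3
  unfold lv
  split_ifs with h1 h2
  · simp only [OfNat.zero_ne_ofNat, iff_false]
    exact fun h4 => h3 x ⟨h1, h4⟩
  · simp [h2]
  · simp [h2]

theorem sm_iff_lv (h : ∀ k, Ax N k) (x y : N) : sm x y ↔ lv x = lv y := by
  have := lv_le x
  have := lv_le y
  rw [sm, q0_iff_lv, q0_iff_lv, q1_iff_lv h, q1_iff_lv h]
  omega

theorem up_iff_lv (h : ∀ k, Ax N k) (x g : N) : up x g ↔ lv x = lv g + 1 := by
  have := lv_le x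
  have := lv_le g
  rw [up, q0_iff_lv, q0_iff_lv, q1_iff_lv h, q1_iff_lv h]
  omega

/-- The structure with levels given by the axioms. -/
@[reducible] noncomputable def tlOfAx (h : ∀ k, Ax N k) : TL N :=
  letI := mkLO h
  { mkLO h with
    lt_iff := fun _ _ => Iff.rfl
    lev := lv
    lev_le := lv_le
    p0_iff := q0_iff_lv
    p1_iff := q1_iff_lv h
    lev_mono := by
      intro x y hxy
      rcases eq_or_lt_of_le hxy with h1 | h1
      · rw [h1]
      · have h4 : ∀ x y : N, rr x y → (q0 y → q0 x) ∧ (q1 y → q0 x ∨ q1 x) := h 4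
        have h5 := h4 x y h1
        rw [q0_iff_lv, q0_iff_lv, q1_iff_lv h, q1_iff_lv h] at h5
        have := lv_le x
        have := lv_le y
        omega
    d_junk := by
      intro x y hxy
      have h5 : ∀ x y : N, ((q0 x ∨ ¬ sm x y) ∨ x = y) → dd x y = x := h 5
      apply h5
      rw [q0_iff_lv, sm_iff_lv h]
      tauto
    d_lev := by
      intro x y h1 h2 h3
      have h6 : ∀ x y : N, sm x y → ¬ q0 x → ¬ x = y →
        (q1 x → q0 (dd x y)) ∧ (¬ q1 x → q1 (dd x y)) := h 6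
      have h7 := h6 x y ((sm_iff_lv h _ _).2 h1) (fun h8 => h2 ((q0_iff_lv _).1 h8)) h3
      rw [q0_iff_lv, q1_iff_lv h, q1_iff_lv h] at h7
      have := lv_le x
      omega
    d_symm := by
      intro x y h1 h2
      have h7 : ∀ x y : N, sm x y → ¬ q0 x → dd x y = dd y x := h 7
      exact h7 x y ((sm_iff_lv h _ _).2 h1) (fun h8 => h2 ((q0_iff_lv _).1 h8))
    d_conv := by
      intro x y z h1 h2 h3 h4
      have h8 : ∀ x y z : N, rr x y → rr y z → sm x z → ¬ q0 x →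
        (dd x z = dd x y ∧ ¬ rr (dd y z) (dd x y)) ∨
          (dd x z = dd y z ∧ ¬ rr (dd x y) (dd y z)) := h 8
      rcases h8 x y z h1 h2 ((sm_iff_lv h _ _).2 h3) (fun h9 => h4 ((q0_iff_lv _).1 h9)) with
        ⟨h5, h6⟩ | ⟨h5, h6⟩
      · have h7 : dd x y ≤ dd y z := not_lt.1 h6
        rw [min_eq_left h7, h5]
      · have h7 : dd y z ≤ dd x y := not_lt.1 h6
        rw [min_eq_right h7, h5]
    ext_lt := by
      intro x g h1
      have h9 : ∀ x g : N, up x g → ∃ y : N, rr y x ∧ sm y x ∧ dd x y = g := h 9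
      obtain ⟨y, h2, h3, h4⟩ := h9 x g ((up_iff_lv h _ _).2 h1)
      exact ⟨y, h2, (sm_iff_lv h _ _).1 h3, h4⟩
    ext_gt := by
      intro x g h1
      have h9 : ∀ x g : N, up x g → ∃ y : N, rr x y ∧ sm y x ∧ dd x y = g := h 10
      obtain ⟨y, h2, h3, h4⟩ := h9 x g ((up_iff_lv h _ _).2 h1)
      exact ⟨y, h2, (sm_iff_lv h _ _).1 h3, h4⟩
    mid := by
      intro x y h1 h2 h3
      have h11 : ∀ x y : N, rr x y → sm x y → ¬ q0 x →
        ∃ z : N, rr x z ∧ rr z y ∧ dd x z = dd x y ∧ dd z y = dd x y := h 11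
      exact h11 x y h1 ((sm_iff_lv h _ _).2 h2) (fun h8 => h3 ((q0_iff_lv _).1 h8))
    dense0 := by
      intro x y h1 h2
      have h12 : ∀ x y : N, rr x y → q0 y → ∃ z : N, rr x z ∧ rr z y := h 12
      exact h12 x y h1 ((q0_iff_lv _).2 h2)
    noMin0 := by
      intro x h1
      have h13 : ∀ x : N, q0 x → ∃ y : N, rr y x := h 13
      exact h13 x ((q0_iff_lv _).2 h1)
    noMax0 := by
      intro x h1
      have h14 : ∀ x : N, q0 x → ∃ y : N, rr x y ∧ q0 y := h 14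
      obtain ⟨y, h2, h3⟩ := h14 x ((q0_iff_lv _).2 h1)
      exact ⟨y, h2, (q0_iff_lv _).1 h3⟩
    ex := by
      intro k hk
      have h15 : ∃ x : N, q0 x := h 15
      have h16 : ∃ x : N, q1 x := h 16
      have h17 : ∃ x : N, ¬ q0 x ∧ ¬ q1 x := h 17
      rcases (by omega : k = 0 ∨ k = 1 ∨ k = 2) with rfl | rfl | rfl
      · obtain ⟨x, hx⟩ := h15
        exact ⟨x, (q0_iff_lv _).1 hx⟩
      · obtain ⟨x, hx⟩ := h16
        exact ⟨x, (q1_iff_lv h _).1 hx⟩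
      · obtain ⟨x, hx1, hx2⟩ := h17
        rw [q0_iff_lv] at hx1
        rw [q1_iff_lv h] at hx2
        have := lv_le x
        exact ⟨x, by omega⟩ }

end ofAx

/-- Every elementary extension of the model satisfies the axioms. -/
theorem ax_of_elem {U : Type*} [Lg.Structure U] (i : Mod ↪ₑ[Lg] U) (k : Fin 18) : Ax U k := by
  rw [← realize_sen, ← i.map_sentence, realize_sen]
  exact ax_of_tl Mod k

/-- Every elementary extension of the model is a structure with levels. -/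
@[reducible] noncomputable def tlOfElem {U : Type*} [Lg.Structure U] (i : Mod ↪ₑ[Lg] U) : TL U :=
  tlOfAx (ax_of_elem i)

end Pool.Agent.W5h80.TL
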