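import Pool.Agent.W5h80.TL.Count
import Pool.Agent.W5h80.TL.Transfer

set_option linter.dupNamespace false
set_option linter.unusedSectionVars false

open FirstOrder FirstOrder.Language Set

namespace Pool.Agent.W5h80.TL

/-! ### Formulas only see their free variables -/

theorem PI.realize_free {N N' : Type*} [Lg.Structure N] [Lg.Structure N'] [TL N] [TL N']
    {α : Type*} [DecidableEq α] (φ : Lg.Formula α) {G : Set (N × N')} (h : PI G) (hf : G.Finite)
    {v : α → N} {v' : α → N'} (hv : ∀ i ∈ φ.freeVarFinset, (v i, v' i) ∈ G) :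
    φ.Realize v ↔ φ.Realize v' := by
  have h1 : (BoundedFormula.restrictFreeVar φ (id : φ.freeVarFinset → φ.freeVarFinset)).Realize
      (fun a => v a) default ↔ φ.Realize v :=
    BoundedFormula.realize_restrictFreeVar v (fun _ => rfl)
  have h2 : (BoundedFormula.restrictFreeVar φ (id : φ.freeVarFinset → φ.freeVarFinset)).Realize
      (fun a => v' a) default ↔ φ.Realize v' :=
    BoundedFormula.realize_restrictFreeVar v' (fun _ => rfl)
  rw [← h1, ← h2]
  exact PI.realize_bounded _ G h hf _ _ (fun (i : φ.freeVarFinset) => hv i.1 i.2) _ _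
    (fun i => i.elim0)

/-! ### Closures -/

section closure

variable {N : Type*} [Lg.Structure N] [TL N]

theorem mem_of_mem_cl_lev2 {S : Finset N} {z : N} (hz : z ∈ cl S) (h2 : TL.lev z = 2) : z ∈ S := by
  rcases mem_cl1_or hz with h | ⟨a, ha, b, hb, hab, hd, hl⟩
  · rcases mem_cl1_or h with h | ⟨a, ha, b, hb, hab, hd, hl⟩
    · exact h
    · have := TL.lev_le a
      omega
  · have := TL.lev_le a
    omega

theorem term_mem {α : Type*} {A : Set N} (hA : Closed A) {v : α → N} (hv : ∀ i, v i ∈ A)
    (t : Lg.Term α) : t.realize v ∈ A := by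
  induction t with
  | var i => exact hv i
  | @func l f ts ih =>
    cases f
    have e1 := PI.realize_func v ts
    rw [e1]
    exact hA _ (ih 0) _ (ih 1)

/-- The closure of an arbitrary set. -/
def clT (B : Set N) : Set N := {x | ∃ t : Lg.Term B, t.realize (fun b : B => (b : N)) = x}

theorem subset_clT (B : Set N) : B ⊆ clT B := fun x hx => ⟨.var ⟨x, hx⟩, rfl⟩

theorem closed_clT (B : Set N) : Closed (clT B) := by
  rintro _ ⟨s, rfl⟩ _ ⟨t, rfl⟩
  refine ⟨tD s t, ?_⟩
  exact Term.realize_functions_apply₂

instance : Countable (Σ l, Lg.Functions l) := by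
  have : Function.Injective (fun _ : (Σ l, Lg.Functions l) => ()) := by
    rintro ⟨l, f⟩ ⟨l', f'⟩ _
    cases f
    cases f'
    rfl
  exact this.countable

instance : Countable (Σ l, Lg.Relations l) := by
  have : Function.Injective (fun x : (Σ l, Lg.Relations l) => (match x with
    | ⟨_, Rl.lt⟩ => 0
    | ⟨_, Rl.p0⟩ => 1
    | ⟨_, Rl.p1⟩ => 2 : ℕ)) := by
    rintro ⟨l, f⟩ ⟨l', f'⟩ h
    cases f <;> cases f' <;> simp at h <;> rfl
  exact this.countable

theorem countable_clT {B : Set N} (hB : B.Countable) : (clT B).Countable := by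
  have : Countable B := hB.to_subtype
  have h : clT B = Set.range (fun t : Lg.Term B => t.realize (fun b : B => (b : N))) := rfl
  rw [h]
  exact Set.countable_range _

/-- Adding a point adds at most one new element of level 0. -/
theorem add_point (k : ℕ) : ∀ (B : Set N), Closed B → ∀ b : N, TL.lev b = k →
    ∃ B' : Set N, Closed B' ∧ B ⊆ B' ∧ b ∈ B' ∧
      (∀ z ∈ B', z ∈ B ∨ TL.lev z < k ∨ z = b) ∧
      ∃ e : N, ∀ z ∈ B', TL.lev z = 0 → z ∈ B ∨ z = e := by
  induction k with
  | zero =>
    intro B hB b hb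
    refine ⟨insert b B, ?_, subset_insert _ _, mem_insert _ _, ?_, b, ?_⟩
    · rintro x (rfl | hx) y (rfl | hy)
      · rw [TL.d_junk (Or.inr (Or.inr rfl))]
        exact mem_insert _ _
      · rw [TL.d_junk (Or.inl hb)]
        exact mem_insert _ _
      · by_cases h : TL.lev x = 0
        · rw [TL.d_junk (Or.inl h)]
          exact mem_insert_of_mem _ hx
        · rw [TL.d_junk (Or.inr (Or.inl (by omega)))]
          exact mem_insert_of_mem _ hx
      · exact mem_insert_of_mem _ (hB x hx y hy)
    · rintro z (rfl | hz)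
      · exact Or.inr (Or.inr rfl)
      · exact Or.inl hz
    · rintro z (rfl | hz) _
      · exact Or.inr rfl
      · exact Or.inl hz
  | succ k ih =>
    intro B hB b hb
    by_cases hbB : b ∈ B
    · exact ⟨B, hB, Subset.rfl, hbB, fun z hz => Or.inl hz, b, fun z hz _ => Or.inl hz⟩
    by_cases hnew : ∀ x ∈ B, dd b x ∈ B ∨ dd b x = b
    · refine ⟨insert b B, ?_, subset_insert _ _, mem_insert _ _, ?_, b, ?_⟩
      · rintro x (rfl | hx) y (rfl | hy)
        · rw [TL.d_junk (Or.inr (Or.inr rfl))]
          exact mem_insert _ _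
        · rcases hnew y hy with h | h
          · exact mem_insert_of_mem _ h
          · rw [h]
            exact mem_insert _ _
        · by_cases h : TL.lev x = TL.lev y
          · rw [TL.d_symm h (by omega)]
            rcases hnew x hx with h | h
            · exact mem_insert_of_mem _ h
            · rw [h]
              exact mem_insert _ _
          · rw [TL.d_junk (Or.inr (Or.inl h))]
            exact mem_insert_of_mem _ hx
        · exact mem_insert_of_mem _ (hB x hx y hy)
      · rintro z (rfl | hz)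
        · exact Or.inr (Or.inr rfl)
        · exact Or.inl hz
      · rintro z (rfl | hz) h0
        · omega
        · exact Or.inl hz
    · push Not at hnew
      obtain ⟨x0, hx0, hx1, hx2⟩ := hnew
      have hj : ¬ (TL.lev b = 0 ∨ TL.lev b ≠ TL.lev x0 ∨ b = x0) := fun h => hx2 (TL.d_junk h)
      push Not at hj
      obtain ⟨hb0, hbx, hbne⟩ := hj
      have hlg : TL.lev (dd b x0) = k := by
        have := TL.d_lev hbx hb0 hbne
        omega
      obtain ⟨B2, h1, h2, h3, h4, e, h5⟩ := ih B hB (dd b x0) hlg
      -- all new distances are equal to `dd b x0`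
      have hall : ∀ x ∈ B, TL.lev x = TL.lev b → dd b x ∈ B2 := by
        intro x hx hlx
        by_cases hin : dd b x ∈ B
        · exact h2 hin
        have hxb : x ≠ b := fun h => hbB (h ▸ hx)
        suffices h : dd b x = dd b x0 by rw [h]; exact h3
        by_cases hxx : x = x0
        · rw [hxx]
        have hxx0 : dd x x0 ∈ B := hB x hx x0 hx0
        have key : ∀ x y z : N, TL.lev x = TL.lev z → TL.lev y = TL.lev z → TL.lev z ≠ 0 →
            x < y → y < z → (dd x y = dd x z ∨ dd x y = dd y z) ∨ (dd x z = dd y z) := by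
          intro x y z h1 h2 h3 h4 h5
          have h6 := TL.d_conv h4 h5 h1 (by omega)
          rcases min_choice (dd x y) (dd y z) with h7 | h7
          · exact Or.inl (Or.inl (by rw [h6, h7]))
          · exact Or.inr (by rw [h6, h7])
        -- isosceles
        have iso : dd b x = dd b x0 ∨ dd b x = dd x x0 ∨ dd b x0 = dd x x0 := by
          have hlb : TL.lev b ≠ 0 := hb0
          have s1 : dd x b = dd b x := TL.d_symm hlx (by omega)
          have s2 : dd x0 b = dd b x0 := TL.d_symm hbx.symm (by omega)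
          have s3 : dd x0 x = dd x x0 := TL.d_symm (by omega) (by omega)
          rcases lt_trichotomy b x with h6 | h6 | h6
          · rcases lt_trichotomy x x0 with h7 | h7 | h7
            · have := key b x x0 (by omega) (by omega) (by omega) h6 h7
              tauto
            · exact absurd h7 hxx
            · rcases lt_trichotomy b x0 with h8 | h8 | h8
              · have := key b x0 x (by omega) (by omega) (by omega) h8 h7
                rw [s3] at this
                rcases this with (h | h) | h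
                · exact Or.inl h.symm
                · exact Or.inr (Or.inr h)
                · exact Or.inr (Or.inl h)
              · exact absurd h8 hbne
              · have := key x0 b x (by omega) (by omega) (by omega) h8 h6
                rw [s3, s2] at this
                rcases this with (h | h) | h
                · exact Or.inr (Or.inr h)
                · exact Or.inl h.symm
                · exact Or.inr (Or.inl h.symm)
          · exact absurd h6.symm hxb
          · rcases lt_trichotomy x x0 with h7 | h7 | h7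
            · rcases lt_trichotomy b x0 with h8 | h8 | h8
              · have := key x b x0 (by omega) (by omega) (by omega) h6 h8
                rw [s1] at this
                rcases this with (h | h) | h
                · exact Or.inr (Or.inl h)
                · exact Or.inl h
                · exact Or.inr (Or.inr h.symm)
              · exact absurd h8 hbne
              · have := key x x0 b (by omega) (by omega) (by omega) h7 h8
                rw [s1, s2] at this
                rcases this with (h | h) | h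
                · exact Or.inr (Or.inl h.symm)
                · exact Or.inr (Or.inr h.symm)
                · exact Or.inl h
            · exact absurd h7 hxx
            · have := key x0 x b (by omega) (by omega) (by omega) h7 h6
              rw [s1, s2, s3] at this
              rcases this with (h | h) | h
              · exact Or.inr (Or.inr h.symm)
              · exact Or.inr (Or.inl h.symm)
              · exact Or.inl h.symm
        rcases iso with h | h | h
        · exact h
        · exact absurd (h ▸ hxx0) hin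
        · exact absurd (h ▸ hxx0) hx1
      have hlev2 : ∀ z ∈ B2, TL.lev z = TL.lev b → z ∈ B := by
        intro z hz hlz
        rcases h4 z hz with h | h | h
        · exact h
        · omega
        · rw [h] at hlz
          omega
      refine ⟨insert b B2, ?_, h2.trans (subset_insert _ _), mem_insert _ _, ?_, e, ?_⟩
      · rintro x (rfl | hx) y (rfl | hy)
        · rw [TL.d_junk (Or.inr (Or.inr rfl))]
          exact mem_insert _ _
        · by_cases h : TL.lev x = TL.lev y
          · exact mem_insert_of_mem _ (hall y (hlev2 y hy h.symm) h.symm)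
          · rw [TL.d_junk (Or.inr (Or.inl h))]
            exact mem_insert _ _
        · by_cases h : TL.lev x = TL.lev y
          · rw [TL.d_symm h (by omega)]
            exact mem_insert_of_mem _ (hall x (hlev2 x hx h) h)
          · rw [TL.d_junk (Or.inr (Or.inl h))]
            exact mem_insert_of_mem _ hx
        · exact mem_insert_of_mem _ (h1 x hx y hy)
      · rintro z (rfl | hz)
        · exact Or.inr (Or.inr rfl)
        · rcases h4 z hz with h | h | h
          · exact Or.inl h
          · exact Or.inr (Or.inl (by omega))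
          · exact Or.inr (Or.inl (by rw [h]; omega))
      · rintro z (rfl | hz) h0
        · omega
        · exact h5 z hz h0

/-- Adding `m` points adds at most `m` new elements of level 0. -/
theorem add_tuple (m : ℕ) (B : Set N) (hB : Closed B) (b : Fin m → N) :
    ∃ B' : Set N, Closed B' ∧ B ⊆ B' ∧ (∀ j, b j ∈ B') ∧
      ∃ E : Finset N, E.card ≤ m ∧ ∀ z ∈ B', TL.lev z = 0 → z ∈ B ∨ z ∈ E := by
  classical
  induction m with
  | zero => exact ⟨B, hB, Subset.rfl, fun j => j.elim0, ∅, by simp, fun z hz _ => Or.inl hz⟩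
  | succ m ih =>
    obtain ⟨B1, h1, h2, h3, E, h4, h5⟩ := ih (Fin.init b)
    obtain ⟨B2, h6, h7, h8, _, e, h9⟩ := add_point _ B1 h1 (b (Fin.last m)) rfl
    refine ⟨B2, h6, h2.trans h7, ?_, insert e E, ?_, ?_⟩
    · intro j
      refine Fin.lastCases h8 (fun i => h7 (h3 i)) j
    · exact (Finset.card_insert_le _ _).trans (Nat.add_le_add_right h4 1)
    · intro z hz h0
      rcases h9 z hz h0 with h | h
      · rcases h5 z h h0 with h | h
        · exact Or.inl h
        · exact Or.inr (Finset.mem_insert_of_mem h)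
      · exact Or.inr (h ▸ Finset.mem_insert_self _ _)

/-- Tuples with the same type give a finite partial isomorphism. -/
theorem pi_of_type {γ : Type*} [Finite γ] {v v' : γ → N}
    (h : ∀ ψ : Lg.Formula γ, ψ.Realize v ↔ ψ.Realize v') :
    PI {p : N × N | ∃ t : Lg.Term γ, t.realize v = p.1 ∧ t.realize v' = p.2} ∧
      {p : N × N | ∃ t : Lg.Term γ, t.realize v = p.1 ∧ t.realize v' = p.2}.Finite := by
  classical
  have hreal : ∀ (w : γ → N) (t : Lg.Term γ),
      (Term.relabel (Sum.inl : γ → γ ⊕ Fin 0) t).realize (Sum.elim w default) = t.realize w := by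
    intro w t
    rw [Term.realize_relabel, Sum.elim_comp_inl]
  constructor
  · refine ⟨?_, ?_, ?_⟩
    · rintro ⟨a, a'⟩ ⟨b, b'⟩ ⟨s, rfl, rfl⟩ ⟨t, rfl, rfl⟩
      have h1 := h (fR (Term.relabel Sum.inl s) (Term.relabel Sum.inl t) :
        Lg.BoundedFormula γ 0)
      rw [Formula.Realize, Formula.Realize, realize_fR, realize_fR, hreal, hreal, hreal, hreal,
        rr_iff, rr_iff] at h1
      exact h1
    · rintro ⟨a, a'⟩ ⟨s, rfl, rfl⟩
      have h1 := h (f0 (Term.relabel Sum.inl s) : Lg.BoundedFormula γ 0)
      have h2 := h (f1 (Term.relabel Sum.inl s) : Lg.BoundedFormula γ 0)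
      rw [Formula.Realize, Formula.Realize, realize_f0, realize_f0, hreal, hreal, q0_iff,
        q0_iff] at h1
      rw [Formula.Realize, Formula.Realize, realize_f1, realize_f1, hreal, hreal, q1_iff,
        q1_iff] at h2
      have h3 := TL.lev_le (s.realize v)
      have h4 := TL.lev_le (s.realize v')
      simp only
      omega
    · rintro ⟨a, a'⟩ ⟨b, b'⟩ ⟨s, rfl, rfl⟩ ⟨t, rfl, rfl⟩
      exact ⟨tD s t, Term.realize_functions_apply₂, Term.realize_functions_apply₂⟩
  · have : Fintype γ := Fintype.ofFinite γ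
    let S : Finset N := cl (Finset.univ.image v)
    let S' : Finset N := cl (Finset.univ.image v')
    refine (S.finite_toSet.prod S'.finite_toSet).subset ?_
    rintro ⟨a, a'⟩ ⟨t, rfl, rfl⟩
    exact ⟨term_mem (closed_cl _) (fun i => subset_cl _ (Finset.mem_image_of_mem _
      (Finset.mem_univ i))) t, term_mem (closed_cl _) (fun i => subset_cl _
      (Finset.mem_image_of_mem _ (Finset.mem_univ i))) t⟩

end closure

/-! ### The sequences in the model -/

theorem fd_le {I : Type} [LinearOrder I] (a b : Lv I) (h : a ≠ b) {i : I}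
    (hi : ofLex a i ≠ ofLex b i) : fd a b h ≤ i :=
  Finset.min'_le _ _ (Finsupp.mem_neLocus.2 hi)

/-- The cofinal sequence in level 1. -/
noncomputable def gam (n : ℕ) : G0 := toLex (Finsupp.single (-(n : ℚ)) 1)

/-- The pseudo-convergent sequence in level 2. -/
noncomputable def kap (n : ℕ) : V0 := toLex (∑ j ∈ Finset.range n, Finsupp.single (gam j) (1 : ℚ))

theorem gam_apply (n : ℕ) (j : ℚ) : ofLex (gam n) j = if -(n : ℚ) = j then 1 else 0 := by
  classical
  simp [gam, Finsupp.single_apply]

theorem gam_strictMono : StrictMono gam := by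
  intro a b h
  have hab : (a : ℚ) < b := by exact_mod_cast h
  rw [Finsupp.Lex.lt_iff]
  refine ⟨-(b : ℚ), ?_, ?_⟩
  · intro j hj
    have h1 : -(a : ℚ) ≠ j := by
      intro e
      linarith
    have h2 : -(b : ℚ) ≠ j := hj.ne'
    change ofLex (gam a) j = ofLex (gam b) j
    rw [gam_apply, gam_apply, if_neg h1, if_neg h2]
  · change ofLex (gam a) _ < ofLex (gam b) _
    have h1 : -(a : ℚ) ≠ -(b : ℚ) := by
      intro e
      linarith
    rw [gam_apply, gam_apply, if_neg h1, if_pos rfl]
    norm_num

theorem kap_apply (n : ℕ) (j : G0) :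
    ofLex (kap n) j = ∑ k ∈ Finset.range n, if gam k = j then (1 : ℚ) else 0 := by
  classical
  simp only [kap, ofLex_toLex, Finsupp.finsetSum_apply, Finsupp.single_apply]

theorem kap_gam (n k : ℕ) : ofLex (kap n) (gam k) = if k < n then 1 else 0 := by
  rw [kap_apply]
  have : ∀ j, (gam j = gam k) ↔ j = k := fun j => gam_strictMono.injective.eq_iff
  simp only [this]
  simp

/-- The sequence agrees below the first new point. -/
theorem kap_agree {n m : ℕ} (h : n ≤ m) {j : G0} (hj : j < gam n) :
    ofLex (kap n) j = ofLex (kap m) j := by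
  rw [kap_apply, kap_apply]
  refine Finset.sum_subset (by simpa using h) ?_
  intro k _ hk
  rw [Finset.mem_range, not_lt] at hk
  rw [if_neg]
  intro e
  have : gam n ≤ gam k := gam_strictMono.monotone hk
  rw [e] at this
  exact absurd hj (not_lt.2 this)

theorem kap_ne {n m : ℕ} (h : n < m) : kap n ≠ kap m := by
  intro e
  have h1 := kap_gam n n
  have h2 := kap_gam m n
  rw [e, h2, if_pos h, if_neg (lt_irrefl _)] at h1
  norm_num at h1

theorem fd_kap {n m : ℕ} (h : n < m) : fd (kap n) (kap m) (kap_ne h) = gam n := by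
  refine fd_unique _ _ _ ?_ ?_
  · rw [kap_gam, kap_gam, if_neg (lt_irrefl _), if_pos h]
    norm_num
  · intro j hj
    exact kap_agree h.le hj

/-- Eventually, the position of the sequence with respect to a point is constant. -/
theorem kap_eventually (a : V0) : ∃ N0 : ℕ, ∃ ga : G0, ∀ n ≥ N0,
    ∃ hne : kap n ≠ a, fd (kap n) a hne = ga ∧ (kap n < a ↔ kap N0 < a) := by
  classical
  -- a point where `a` vanishes
  have hex : ∃ k : ℕ, ofLex a (gam k) = 0 := by
    by_contra hcon
    push Not at hcon
    have hsub : Set.range gam ⊆ ↑(ofLex a).support := by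
      rintro _ ⟨k, rfl⟩
      exact Finsupp.mem_support_iff.2 (hcon k)
    exact (Set.infinite_range_of_injective gam_strictMono.injective)
      ((ofLex a).support.finite_toSet.subset hsub)
  obtain ⟨k, hk⟩ := hex
  have hne : ∀ n, k + 1 ≤ n → ofLex (kap n) (gam k) ≠ ofLex a (gam k) := by
    intro n hn
    rw [kap_gam, if_pos (by omega), hk]
    norm_num
  have hne' : ∀ n, k + 1 ≤ n → kap n ≠ a := fun n hn e => hne n hn (by rw [e])
  have hle : ∀ n (hn : k + 1 ≤ n), fd (kap n) a (hne' n hn) ≤ gam k := fun n hn =>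
    fd_le _ _ _ (hne n hn)
  have hfd : ∀ n (hn : k + 1 ≤ n), fd (kap n) a (hne' n hn) =
      fd (kap (k + 1)) a (hne' (k + 1) le_rfl) := by
    intro n hn
    have hlt : fd (kap (k + 1)) a (hne' (k + 1) le_rfl) < gam (k + 1) :=
      (hle (k + 1) le_rfl).trans_lt (gam_strictMono (Nat.lt_succ_self k))
    refine fd_unique _ _ _ ?_ ?_
    · rw [← kap_agree hn hlt]
      exact fd_ne _ _ _
    · intro j hj
      rw [← kap_agree hn (hj.trans hlt)]
      exact fd_eq _ _ _ hj
  refine ⟨k + 1, fd (kap (k + 1)) a (hne' (k + 1) le_rfl), fun n hn => ⟨hne' n hn, hfd n hn, ?_⟩⟩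
  have hlt : fd (kap (k + 1)) a (hne' (k + 1) le_rfl) < gam (k + 1) :=
    (hle (k + 1) le_rfl).trans_lt (gam_strictMono (Nat.lt_succ_self k))
  rw [lv_lt_iff _ _ (hne' n hn), lv_lt_iff _ _ (hne' (k + 1) le_rfl), hfd n hn,
    ← kap_agree hn hlt]

/-- Eventually, the modified sequence in level 1 is above a given point and very far from it. -/
theorem gam_eventually (a : G0) : ∃ N0 : ℕ, ∀ n ≥ N0, ∀ q : ℚ,
    ∃ hlt : a < modv (gam n) q 1, fd a (modv (gam n) q 1) hlt.ne ≤ -(n : ℚ) := by
  classical
  obtain ⟨N0, hN0⟩ : ∃ N0 : ℕ, ∀ j ∈ (ofLex a).support, -(N0 : ℚ) < j := by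
    obtain ⟨c, hc⟩ := ((ofLex a).support.finite_toSet.image (fun j : ℚ => -j)).bddAbove
    obtain ⟨N0, hN0⟩ := exists_nat_gt c
    refine ⟨N0, fun j hj => ?_⟩
    have h1 : -j ≤ c := hc ⟨j, hj, rfl⟩
    linarith
  refine ⟨N0, fun n hn q => ?_⟩
  have hn' : (N0 : ℚ) ≤ n := by exact_mod_cast hn
  have hz : ∀ j : ℚ, j ≤ -(n : ℚ) → ofLex a j = 0 := by
    intro j hj
    by_contra hne
    have := hN0 j (Finsupp.mem_support_iff.2 hne)
    linarith
  have hval : ∀ j : ℚ, 0 ≤ ofLex (modv (gam n) q 1) j := by
    intro j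
    rw [modv_apply, gam_apply]
    split_ifs <;> norm_num
  have hvaln : 0 < ofLex (modv (gam n) q 1) (-(n : ℚ)) := by
    rw [modv_apply, gam_apply, if_pos rfl]
    split_ifs <;> norm_num
  have hne : a ≠ modv (gam n) q 1 := by
    intro e
    rw [← e, hz _ le_rfl] at hvaln
    exact lt_irrefl _ hvaln
  have hle : fd a (modv (gam n) q 1) hne ≤ -(n : ℚ) :=
    fd_le _ _ _ (by
      rw [hz _ le_rfl]
      exact hvaln.ne)
  have hlt : a < modv (gam n) q 1 := by
    rw [lv_lt_iff _ _ hne]
    have h1 := fd_ne a (modv (gam n) q 1) hne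
    rw [hz _ hle] at h1 ⊢
    exact lt_of_le_of_ne (hval _) h1
  exact ⟨hlt, hle⟩

/-- The points of the coheirs. -/
noncomputable def zz (p : ℕ × ℚ) : Fin 2 → Mod := ![Mod.v (kap p.1), Mod.g (modv (gam p.1) p.2 1)]

open _root_.Pool.Agent.W5h80.TL.Mod in
/-- The type over a finite set of the points is eventually constant. -/
theorem zz_eventually (A0 : Finset Mod) : ∃ N0 : ℕ, ∀ p p' : ℕ × ℚ, N0 ≤ p.1 → N0 ≤ p'.1 →
    ∃ G : Set (Mod × Mod), PI G ∧ G.Finite ∧ (∀ a ∈ A0, (a, a) ∈ G) ∧
      ∀ j, (zz p j, zz p' j) ∈ G := by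
  classical
  choose NV gV hV using kap_eventually
  choose NG hG using gam_eventually
  -- the enlarged finite set
  let A : Finset Mod := cl (A0 ∪ A0.image (fun x => match x with
    | v a => g (gV a)
    | _ => g 0) ∪ {g 0})
  have hA0 : A0 ⊆ A := fun x hx =>
    subset_cl _ (Finset.mem_union_left _ (Finset.mem_union_left _ hx))
  have hA : Closed (↑A : Set Mod) := closed_cl _
  have hg0 : g 0 ∈ A := subset_cl _ (Finset.mem_union_right _ (Finset.mem_singleton_self _))
  have hAv : ∀ a : V0, v a ∈ A → v a ∈ A0 := by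
    intro a ha
    have h1 := mem_of_mem_cl_lev2 ha rfl
    rcases Finset.mem_union.1 h1 with h | h
    · rcases Finset.mem_union.1 h with h | h
      · exact h
      · obtain ⟨x, _, hx⟩ := Finset.mem_image.1 h
        cases x <;> simp at hx
    · rw [Finset.mem_singleton] at h
      cases h
  have hAg : ∀ a : V0, v a ∈ A → g (gV a) ∈ A := by
    intro a ha
    exact subset_cl _ (Finset.mem_union_left _ (Finset.mem_union_right _
      (Finset.mem_image.2 ⟨v a, hAv a ha, rfl⟩)))
  -- the maximal element of level 1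
  have hfin : {y : G0 | g y ∈ A}.Finite := by
    have : Set.InjOn g (g ⁻¹' (↑A : Set Mod)) := fun a _ b _ h => by
      cases h
      rfl
    exact A.finite_toSet.preimage this
  obtain ⟨gs, hgs, hgsm⟩ := Set.exists_max_image _ id hfin ⟨0, hg0⟩
  simp only [id] at hgsm
  -- the bound for level 0
  have hfinc : {y : ℚ | c y ∈ A}.Finite := by
    have : Set.InjOn c (c ⁻¹' (↑A : Set Mod)) := fun a _ b _ h => by
      cases h
      rfl
    exact A.finite_toSet.preimage this
  obtain ⟨NC, hNC⟩ : ∃ NC : ℕ, ∀ y : ℚ, c y ∈ A → -(NC : ℚ) < y := by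
    obtain ⟨d, hd⟩ := (hfinc.image (fun j : ℚ => -j)).bddAbove
    obtain ⟨NC, hNC⟩ := exists_nat_gt d
    refine ⟨NC, fun j hj => ?_⟩
    have h1 : -j ≤ d := hd ⟨j, hj, rfl⟩
    linarith
  -- the bound
  have hfinv : {y : V0 | v y ∈ A}.Finite := by
    have : Set.InjOn v (v ⁻¹' (↑A : Set Mod)) := fun a _ b _ h => by
      cases h
      rfl
    exact A.finite_toSet.preimage this
  obtain ⟨N1, hN1⟩ : ∃ N1 : ℕ, ∀ a : V0, v a ∈ A → NV a ≤ N1 := by
    obtain ⟨N1, hN1⟩ := (hfinv.image NV).bddAbove
    exact ⟨N1, fun a ha => hN1 ⟨a, ha, rfl⟩⟩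
  obtain ⟨N2, hN2⟩ : ∃ N2 : ℕ, ∀ a : G0, g a ∈ A → NG a ≤ N2 := by
    obtain ⟨N2, hN2⟩ := (hfin.image NG).bddAbove
    exact ⟨N2, fun a ha => hN2 ⟨a, ha, rfl⟩⟩
  refine ⟨max N1 (max N2 NC), ?_⟩
  rintro ⟨n, q⟩ ⟨n', q'⟩ hn hn'
  simp only at hn hn'
  have hn1 : N1 ≤ n := (le_max_left _ _).trans hn
  have hn2 : N2 ≤ n := (le_max_left _ _).trans ((le_max_right _ _).trans hn)
  have hn3 : NC ≤ n := (le_max_right _ _).trans ((le_max_right _ _).trans hn)
  have hn1' : N1 ≤ n' := (le_max_left _ _).trans hn'
  have hn2' : N2 ≤ n' := (le_max_left _ _).trans ((le_max_right _ _).trans hn')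
  have hn3' : NC ≤ n' := (le_max_right _ _).trans ((le_max_right _ _).trans hn')
  -- step 1
  have h1 : PI (insert (v (kap n), v (kap n')) (idG (↑A : Set Mod))) := by
    refine (pi_idG hA).add rfl ?_
    rintro ⟨x, y⟩ ⟨hxy, hx⟩ hlx
    simp only at hxy hlx hx ⊢
    subst hxy
    cases x with
    | c a => exact absurd hlx (by decide : ¬ (0 = 2))
    | g a => exact absurd hlx (by decide : ¬ (1 = 2))
    | v a =>
      obtain ⟨hne, hfd, hside⟩ := hV a n ((hN1 a hx).trans hn1)
      obtain ⟨hne', hfd', hside'⟩ := hV a n' ((hN1 a hx).trans hn1')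
      have hiff : kap n < a ↔ kap n' < a := hside.trans hside'.symm
      refine ⟨by rw [v_lt_v, v_lt_v]; exact hiff, ?_, fun _ => ?_⟩
      · rw [v_lt_v, v_lt_v]
        constructor
        · intro h
          rcases lt_trichotomy a (kap n') with h2 | h2 | h2
          · exact h2
          · exact absurd h2.symm hne'
          · exact absurd (hiff.2 h2) h.asymm
        · intro h
          rcases lt_trichotomy a (kap n) with h2 | h2 | h2
          · exact h2
          · exact absurd h2.symm hne
          · exact absurd (hiff.1 h2) h.asymm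
      · rw [dd_eq, dd_eq, dist_vv hne, dist_vv hne', hfd, hfd']
        exact ⟨rfl, hAg a hx⟩
  have h1f : (insert (v (kap n), v (kap n')) (idG (↑A : Set Mod))).Finite :=
    (idG_finite A.finite_toSet).insert _
  -- step 2
  obtain ⟨hlt, hle⟩ := hG gs n ((hN2 gs hgs).trans hn2) q
  obtain ⟨hlt', hle'⟩ := hG gs n' ((hN2 gs hgs).trans hn2') q'
  set m := modv (gam n) q 1 with hm
  set m' := modv (gam n') q' 1 with hm'
  set e := fd gs m hlt.ne with he
  set e' := fd gs m' hlt'.ne with he'
  have hcn : (NC : ℚ) ≤ n := by exact_mod_cast hn3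
  have hcn' : (NC : ℚ) ≤ n' := by exact_mod_cast hn3'
  have hE : ∀ y : ℚ, c y ∈ A → e < y ∧ e' < y := by
    intro y hy
    have := hNC y hy
    constructor <;> linarith
  have h2 : PI (insert (c e, c e') (insert (v (kap n), v (kap n')) (idG (↑A : Set Mod)))) := by
    refine h1.add rfl ?_
    rintro ⟨x, y⟩ hxy hlx
    rcases hxy with hxy | ⟨hxy, hx⟩
    · simp only [Prod.mk.injEq] at hxy
      obtain ⟨rfl, rfl⟩ := hxy
      exact absurd hlx (by decide : ¬ (2 = 0))
    · simp only at hxy hlx hx ⊢
      subst hxy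
      cases x with
      | c a =>
        obtain ⟨h3, h4⟩ := hE a hx
        refine ⟨by rw [c_lt_c, c_lt_c]; exact ⟨fun _ => h4, fun _ => h3⟩,
          by rw [c_lt_c, c_lt_c]; exact ⟨fun h => absurd h h3.asymm, fun h => absurd h h4.asymm⟩,
          fun h => absurd rfl h⟩
      | g a => exact absurd hlx (by decide : ¬ (1 = 0))
      | v a => exact absurd hlx (by decide : ¬ (2 = 0))
  -- step 3
  have hcase : ∀ y : G0, g y ∈ A → (y < m ∧ y < m') ∧
      (dist (g m) (g y) = c e ∧ dist (g m') (g y) = c e') := by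
    intro y hy
    have hyle : y ≤ gs := hgsm y hy
    have hym : y < m := lt_of_le_of_lt hyle hlt
    have hym' : y < m' := lt_of_le_of_lt hyle hlt'
    refine ⟨⟨hym, hym'⟩, ?_⟩
    rcases eq_or_lt_of_le hyle with h3 | h3
    · subst h3
      rw [dist_gg hym.ne', dist_gg hym'.ne', fd_symm, fd_symm m' y]
      exact ⟨rfl, rfl⟩
    · have hc : c (fd y gs h3.ne) ∈ A := by
        have := hA _ hy _ hgs
        rw [dd_eq, dist_gg h3.ne] at this
        exact this
      obtain ⟨h4, h5⟩ := hE _ hc
      rw [dist_gg hym.ne', dist_gg hym'.ne', fd_symm, fd_symm m' y]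
      rw [fd_conv y gs m h3 hlt, fd_conv y gs m' h3 hlt', min_eq_right h4.le, min_eq_right h5.le]
      exact ⟨rfl, rfl⟩
  have h3 : PI (insert (g m, g m') (insert (c e, c e')
      (insert (v (kap n), v (kap n')) (idG (↑A : Set Mod))))) := by
    refine h2.add rfl ?_
    rintro ⟨x, y⟩ hxy hlx
    rcases hxy with hxy | hxy | ⟨hxy, hx⟩
    · simp only [Prod.mk.injEq] at hxy
      obtain ⟨rfl, rfl⟩ := hxy
      exact absurd hlx (by decide : ¬ (0 = 1))
    · simp only [Prod.mk.injEq] at hxy
      obtain ⟨rfl, rfl⟩ := hxy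
      exact absurd hlx (by decide : ¬ (2 = 1))
    · simp only at hxy hlx hx ⊢
      subst hxy
      cases x with
      | c a => exact absurd hlx (by decide : ¬ (0 = 1))
      | g a =>
        obtain ⟨⟨h4, h5⟩, h6, h7⟩ := hcase a hx
        refine ⟨by rw [g_lt_g, g_lt_g]; exact ⟨fun h => absurd h h4.asymm,
          fun h => absurd h h5.asymm⟩, by rw [g_lt_g, g_lt_g]; exact ⟨fun _ => h5, fun _ => h4⟩,
          fun _ => ?_⟩
        rw [dd_eq, dd_eq, h6, h7]
        exact mem_insert _ _
      | v a => exact absurd hlx (by decide : ¬ (2 = 1))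
  refine ⟨_, h3, (h1f.insert _).insert _, ?_, ?_⟩
  · intro a ha
    exact mem_insert_of_mem _ (mem_insert_of_mem _ (mem_insert_of_mem _ ⟨rfl, hA0 ha⟩))
  · intro j
    fin_cases j
    · exact mem_insert_of_mem _ (mem_insert_of_mem _ (mem_insert _ _))
    · exact mem_insert _ _

/-- Truth of formulas over the model at the points is eventually constant. -/
theorem zz_formula (φ : Lg.Formula (Fin 2 ⊕ Mod)) : ∃ N0 : ℕ, ∀ p p' : ℕ × ℚ, N0 ≤ p.1 →
    N0 ≤ p'.1 → (φ.Realize (Sum.elim (zz p) id) ↔ φ.Realize (Sum.elim (zz p') id)) := by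
  classical
  let A0 : Finset Mod := φ.freeVarFinset.image (fun x => Sum.elim (fun _ => Mod.c 0) id x)
  obtain ⟨N0, hN0⟩ := zz_eventually A0
  refine ⟨N0, fun p p' hp hp' => ?_⟩
  obtain ⟨G, h1, h2, h3, h4⟩ := hN0 p p' hp hp'
  refine PI.realize_free φ h1 h2 ?_
  rintro (j | a) hi
  · exact h4 j
  · exact h3 a (Finset.mem_image.2 ⟨Sum.inr a, hi, rfl⟩)

end Pool.Agent.W5h80.TL
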